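import Pool.Agent.Lib.MP_b89653_co.Robust

set_option autoImplicit false

namespace Pool.Agent.Lib.MP_b89653_co

open Finset

variable {V : Type*}

/-- Number of vertices of `A` joined to both `b` and `b'` in colour `c`. -/
def cdg (col : V → V → ℕ) (A : Finset V) (c : ℕ) (b b' : V) : ℕ :=
  (A.filter fun a => col a b = c ∧ col a b' = c).card

lemma cdg_comm (col : V → V → ℕ) (A : Finset V) (c : ℕ) (b b' : V) :
    cdg col A c b b' = cdg col A c b' b := by
  unfold cdg
  congr 1
  ext a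
  simp only [Finset.mem_filter]
  tauto

/-- The reciprocal codegree weight. -/
def phi (col : V → V → ℕ) (A : Finset V) (a b b' : V) : ℚ :=
  if col a b = col a b' then 1 / (cdg col A (col a b) b b' : ℚ) else 0

lemma phi_nonneg (col : V → V → ℕ) (A : Finset V) (a b b' : V) : 0 ≤ phi col A a b b' := by
  unfold phi
  split_ifs <;> positivity

lemma phi_comm (col : V → V → ℕ) (A : Finset V) (a b b' : V) :
    phi col A a b b' = phi col A a b' b := by
  unfold phi
  by_cases h : col a b = col a b'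
  · rw [if_pos h, if_pos h.symm, cdg_comm, h]
  · rw [if_neg h, if_neg (fun e => h e.symm)]

lemma sum_phi_le (col : V → V → ℕ) (A : Finset V) (b b' : V) :
    ∑ a ∈ A, phi col A a b b' ≤ ((A.image fun a => col a b).card : ℚ) := by
  rw [← Finset.sum_fiberwise_of_maps_to (s := A) (t := A.image fun a => col a b)
    (g := fun a => col a b) (fun a ha => Finset.mem_image_of_mem _ ha)]
  have : ∀ c ∈ A.image (fun a => col a b),
      ∑ a ∈ A.filter (fun a => col a b = c), phi col A a b b' ≤ 1 := by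
    intro c _
    have e : ∑ a ∈ A.filter (fun a => col a b = c), phi col A a b b' =
        ∑ a ∈ A.filter (fun a => col a b = c ∧ col a b' = c), 1 / (cdg col A c b b' : ℚ) := by
      rw [← Finset.filter_filter, Finset.sum_filter (s := A.filter (fun a => col a b = c))]
      apply Finset.sum_congr rfl
      intro a ha
      have ha' := (Finset.mem_filter.1 ha).2
      unfold phi
      rw [ha']
      by_cases h : col a b' = c
      · rw [if_pos h, if_pos h.symm]
      · rw [if_neg h, if_neg (fun e => h e.symm)]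
    rw [e, Finset.sum_const, nsmul_eq_mul]
    change (cdg col A c b b' : ℚ) * (1 / (cdg col A c b b' : ℚ)) ≤ 1
    rw [mul_one_div]
    exact div_self_le_one _
  simpa using Finset.sum_le_card_nsmul _ _ _ this

lemma exists_good_pair (col : V → V → ℕ) (A B : Finset V) (hA : A.Nonempty) (ρ : ℕ)
    (h : ρ * ∑ b ∈ B, (A.image fun a => col a b).card ≤ A.card) :
    ∃ a₁ ∈ A, ∃ a₂ ∈ A, (ρ : ℚ) ^ 2 *
      ∑ p ∈ B ×ˢ B, phi col A a₁ p.1 p.2 * phi col A a₂ p.1 p.2 ≤ 1 := by
  have key : ∑ q ∈ A ×ˢ A, (ρ : ℚ) ^ 2 *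
      ∑ p ∈ B ×ˢ B, phi col A q.1 p.1 p.2 * phi col A q.2 p.1 p.2 ≤ ∑ q ∈ A ×ˢ A, (1 : ℚ) := by
    rw [← Finset.mul_sum, Finset.sum_comm]
    have e1 : ∑ p ∈ B ×ˢ B, ∑ q ∈ A ×ˢ A, phi col A q.1 p.1 p.2 * phi col A q.2 p.1 p.2 ≤
        ∑ p ∈ B ×ˢ B, ((A.image fun a => col a p.1).card : ℚ) *
          ((A.image fun a => col a p.2).card : ℚ) := by
      apply Finset.sum_le_sum
      intro p _
      rw [Finset.sum_product]
      simp only []
      rw [← Finset.sum_mul_sum]
      apply mul_le_mul (sum_phi_le col A p.1 p.2)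
      · simp only [phi_comm col A _ p.1 p.2]
        exact sum_phi_le col A p.2 p.1
      · exact Finset.sum_nonneg fun a _ => phi_nonneg _ _ _ _ _
      · positivity
    have e2 : ∑ p ∈ B ×ˢ B, ((A.image fun a => col a p.1).card : ℚ) *
          ((A.image fun a => col a p.2).card : ℚ) =
        ((∑ b ∈ B, (A.image fun a => col a b).card : ℕ) : ℚ) ^ 2 := by
      rw [Finset.sum_product, sq]
      push_cast
      rw [Finset.sum_mul_sum]
    have e3 : (ρ : ℚ) * ((∑ b ∈ B, (A.image fun a => col a b).card : ℕ) : ℚ) ≤ A.card := by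
      exact_mod_cast h
    rw [e2] at e1
    simp only [Finset.sum_const, Finset.card_product, nsmul_eq_mul, mul_one]
    push_cast [Nat.cast_mul]
    calc _ ≤ (ρ : ℚ) ^ 2 * ((∑ b ∈ B, (A.image fun a => col a b).card : ℕ) : ℚ) ^ 2 :=
          mul_le_mul_of_nonneg_left e1 (by positivity)
      _ = ((ρ : ℚ) * ((∑ b ∈ B, (A.image fun a => col a b).card : ℕ) : ℚ)) ^ 2 := by ring
      _ ≤ (A.card : ℚ) ^ 2 := pow_le_pow_left₀ (by positivity) e3 2
      _ = _ := by ring
  obtain ⟨q, hq, hq'⟩ := Finset.exists_le_of_sum_le (hA.product hA) key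
  exact ⟨q.1, (Finset.mem_product.1 hq).1, q.2, (Finset.mem_product.1 hq).2, hq'⟩

/-- Counting pairs of one part with small codegrees. -/
lemma count_bad (col : V → V → ℕ) (A B P : Finset V) (hPB : P ⊆ B) (ρ : ℕ) (a₁ a₂ : V)
    (h1 : a₁ ∈ A) (h2 : a₂ ∈ A) (c₁ c₂ : ℕ) (hP : ∀ b ∈ P, col a₁ b = c₁ ∧ col a₂ b = c₂)
    (h : (ρ : ℚ) ^ 2 * ∑ p ∈ B ×ˢ B, phi col A a₁ p.1 p.2 * phi col A a₂ p.1 p.2 ≤ 1) (y : ℕ) :
    ρ ^ 2 * ((P ×ˢ P).filter fun p =>
      max (cdg col A c₁ p.1 p.2) (cdg col A c₂ p.1 p.2) ≤ y).card ≤ y ^ 2 := by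
  set T := (P ×ˢ P).filter fun p => max (cdg col A c₁ p.1 p.2) (cdg col A c₂ p.1 p.2) ≤ y with hT
  have hterm : ∀ p ∈ T, (1 : ℚ) ≤ (y : ℚ) ^ 2 * (phi col A a₁ p.1 p.2 * phi col A a₂ p.1 p.2) := by
    intro p hp
    obtain ⟨hp1, hp2⟩ := Finset.mem_filter.1 hp
    obtain ⟨hp3, hp4⟩ := Finset.mem_product.1 hp1
    obtain ⟨e1, e2⟩ := hP _ hp3
    obtain ⟨e3, e4⟩ := hP _ hp4
    have p1 : 0 < cdg col A c₁ p.1 p.2 :=
      Finset.card_pos.2 ⟨a₁, Finset.mem_filter.2 ⟨h1, e1, e3⟩⟩
    have p2 : 0 < cdg col A c₂ p.1 p.2 :=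
      Finset.card_pos.2 ⟨a₂, Finset.mem_filter.2 ⟨h2, e2, e4⟩⟩
    have l1 : (cdg col A c₁ p.1 p.2 : ℚ) ≤ y := by exact_mod_cast (le_max_left _ _).trans hp2
    have l2 : (cdg col A c₂ p.1 p.2 : ℚ) ≤ y := by exact_mod_cast (le_max_right _ _).trans hp2
    have p1' : (0 : ℚ) < cdg col A c₁ p.1 p.2 := by exact_mod_cast p1
    have p2' : (0 : ℚ) < cdg col A c₂ p.1 p.2 := by exact_mod_cast p2
    unfold phi
    rw [if_pos (e1.trans e3.symm), if_pos (e2.trans e4.symm), e1, e2]
    have : (y : ℚ) ^ 2 * (1 / (cdg col A c₁ p.1 p.2 : ℚ) * (1 / (cdg col A c₂ p.1 p.2 : ℚ))) =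
        ((y : ℚ) / (cdg col A c₁ p.1 p.2 : ℚ)) * ((y : ℚ) / (cdg col A c₂ p.1 p.2 : ℚ)) := by
      ring
    rw [this]
    exact one_le_mul_of_one_le_of_one_le ((one_le_div p1').2 l1) ((one_le_div p2').2 l2)
  have hs : (T.card : ℚ) ≤ (y : ℚ) ^ 2 *
      ∑ p ∈ B ×ˢ B, phi col A a₁ p.1 p.2 * phi col A a₂ p.1 p.2 := by
    calc (T.card : ℚ) = ∑ p ∈ T, (1 : ℚ) := by simp
      _ ≤ ∑ p ∈ T, (y : ℚ) ^ 2 * (phi col A a₁ p.1 p.2 * phi col A a₂ p.1 p.2) :=
        Finset.sum_le_sum hterm
      _ = (y : ℚ) ^ 2 * ∑ p ∈ T, (phi col A a₁ p.1 p.2 * phi col A a₂ p.1 p.2) := by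
        rw [Finset.mul_sum]
      _ ≤ _ := by
        apply mul_le_mul_of_nonneg_left _ (by positivity)
        apply Finset.sum_le_sum_of_subset_of_nonneg
        · exact (Finset.filter_subset _ _).trans (Finset.product_subset_product hPB hPB)
        · intro p _ _
          exact mul_nonneg (phi_nonneg _ _ _ _ _) (phi_nonneg _ _ _ _ _)
  have : (ρ : ℚ) ^ 2 * (T.card : ℚ) ≤ (y : ℚ) ^ 2 := by
    calc _ ≤ (ρ : ℚ) ^ 2 * ((y : ℚ) ^ 2 *
        ∑ p ∈ B ×ˢ B, phi col A a₁ p.1 p.2 * phi col A a₂ p.1 p.2) :=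
          mul_le_mul_of_nonneg_left hs (by positivity)
      _ = (y : ℚ) ^ 2 * ((ρ : ℚ) ^ 2 *
        ∑ p ∈ B ×ˢ B, phi col A a₁ p.1 p.2 * phi col A a₂ p.1 p.2) := by ring
      _ ≤ (y : ℚ) ^ 2 * 1 := mul_le_mul_of_nonneg_left h (by positivity)
      _ = _ := by ring
  exact_mod_cast this

/-- Choice of scales inside one part. -/
lemma part_scales (P : Finset V) (w : V → V → ℕ) (Q t : ℕ) (hQ : 1 ≤ Q)
    (hw : ∀ y, (t * Q) ^ 2 * ((P ×ˢ P).filter fun p => w p.1 p.2 ≤ y).card ≤ y ^ 2) :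
    ∃ x : V → ℕ, (∀ b ∈ P, Q * (P.filter fun b' => w b b' < x b).card ≤ P.card) ∧
      ∀ y, t * (P.filter fun b => x b ≤ y).card ≤ y := by
  classical
  have hex : ∀ b ∈ P, ∃ x : ℕ, Q * (P.filter fun b' => w b b' < x).card ≤ P.card ∧
      ∀ y, x ≤ y → P.card ≤ Q * (P.filter fun b' => w b b' ≤ y).card := by
    intro b _
    have h0 : ∃ y, P.card ≤ Q * (P.filter fun b' => w b b' ≤ y).card := by
      refine ⟨P.sup (w b), ?_⟩
      rw [Finset.filter_true_of_mem (fun b' hb' => Finset.le_sup (f := w b) hb')]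
      nlinarith
    refine ⟨Nat.find h0, ?_, ?_⟩
    · rcases Nat.eq_zero_or_pos (Nat.find h0) with e | e
      · rw [e]; simp
      · have := Nat.find_min h0 (m := Nat.find h0 - 1) (by omega)
        have e' : (P.filter fun b' => w b b' < Nat.find h0) =
            (P.filter fun b' => w b b' ≤ Nat.find h0 - 1) := by
          apply Finset.filter_congr
          intro b' _
          omega
        rw [e']
        omega
    · intro y hy
      refine (Nat.find_spec h0).trans (Nat.mul_le_mul_left _ (Finset.card_le_card ?_))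
      intro b' hb'
      obtain ⟨e1, e2⟩ := Finset.mem_filter.1 hb'
      exact Finset.mem_filter.2 ⟨e1, e2.trans hy⟩
  choose! x hx1 hx2 using hex
  refine ⟨x, hx1, fun y => ?_⟩
  set m := (P.filter fun b => x b ≤ y).card with hm
  have e1 : ((P ×ˢ P).filter fun p => w p.1 p.2 ≤ y).card =
      ∑ b ∈ P, (P.filter fun b' => w b b' ≤ y).card := by
    simp only [Finset.card_filter]
    rw [Finset.sum_product]
  have e2 : m * P.card ≤ Q * ∑ b ∈ P, (P.filter fun b' => w b b' ≤ y).card := by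
    calc m * P.card ≤ ∑ b ∈ P.filter (fun b => x b ≤ y),
          Q * (P.filter fun b' => w b b' ≤ y).card := by
          have := Finset.card_nsmul_le_sum (P.filter fun b => x b ≤ y)
            (fun b => Q * (P.filter fun b' => w b b' ≤ y).card) P.card
            (fun b hb => hx2 b (Finset.mem_filter.1 hb).1 y (Finset.mem_filter.1 hb).2)
          simpa using this
      _ ≤ ∑ b ∈ P, Q * (P.filter fun b' => w b b' ≤ y).card :=
          Finset.sum_le_sum_of_subset (Finset.filter_subset _ _)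
      _ = _ := by rw [Finset.mul_sum]
  have e3 : m ≤ P.card := Finset.card_filter_le _ _
  have e4 := hw y
  rw [e1] at e4
  set Sg := ∑ b ∈ P, (P.filter fun b' => w b b' ≤ y).card
  have e5 : m * m ≤ Q * Sg := (Nat.mul_le_mul_left m e3).trans e2
  have e6 : (t * m) ^ 2 ≤ y ^ 2 := by
    calc (t * m) ^ 2 = t ^ 2 * (m * m) := by ring
      _ ≤ t ^ 2 * (Q * Sg) := Nat.mul_le_mul_left _ e5
      _ ≤ t ^ 2 * (Q * Q * Sg) :=
        Nat.mul_le_mul_left _ (Nat.mul_le_mul_right _ (by nlinarith))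
      _ = (t * Q) ^ 2 * Sg := by ring
      _ ≤ _ := e4
  exact (Nat.pow_le_pow_iff_left (by norm_num)).1 e6

/-- The covering lemma: `A` sees few colours everywhere, `B` sees few colours in total. -/
theorem gcl (k : ℕ) (hk : 1 ≤ k) : ∃ ρ g : ℕ, 1 ≤ ρ ∧
    ∀ (V : Type) [DecidableEq V] (col : V → V → ℕ) (A B : Finset V), (∀ u v, col u v = col v u) → Disjoint B A →
      A.Nonempty → (∀ a ∈ A, (B.image (col a)).card ≤ k) →
      ρ * ∑ b ∈ B, (A.image fun a => col a b).card ≤ A.card →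
      ∃ Y ⊆ A, Y.card ≤ B.card ∧ Cover (Rel fun u v => some (col u v)) (B ∪ Y) g := by
  classical
  obtain ⟨Q, f, hQ, hRT⟩ := robust_partition 2 (by norm_num)
  refine ⟨2 * (k * k) * Q, k * k * f, Nat.mul_pos (by positivity) hQ, ?_⟩
  intro V _ col A B hsym hd hA hk' hsum
  obtain ⟨a₁, h1, a₂, h2, hΦ⟩ := exists_good_pair col A B hA _ hsum
  let lab : V → ℕ × ℕ := fun b => (col a₁ b, col a₂ b)
  let I : Finset (ℕ × ℕ) := B.image (col a₁) ×ˢ B.image (col a₂)
  have hI : I.card ≤ k * k := by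
    rw [Finset.card_product]
    exact Nat.mul_le_mul (hk' a₁ h1) (hk' a₂ h2)
  have hlab : ∀ b ∈ B, lab b ∈ I := fun b hb =>
    Finset.mem_product.2 ⟨Finset.mem_image_of_mem _ hb, Finset.mem_image_of_mem _ hb⟩
  let w : ℕ × ℕ → V → V → ℕ := fun i b b' => max (cdg col A i.1 b b') (cdg col A i.2 b b')
  have hsc : ∀ i : ℕ × ℕ, ∃ x : V → ℕ,
      (∀ b ∈ B.filter (fun b => lab b = i), Q * ((B.filter (fun b => lab b = i)).filter
        fun b' => w i b b' < x b).card ≤ (B.filter (fun b => lab b = i)).card) ∧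
      ∀ y, 2 * (k * k) * ((B.filter (fun b => lab b = i)).filter fun b => x b ≤ y).card ≤ y := by
    intro i
    apply part_scales _ (w i) Q _ hQ
    intro y
    exact count_bad col A B _ (Finset.filter_subset _ _) _ a₁ a₂ h1 h2 i.1 i.2
      (fun b hb => by
        have := (Finset.mem_filter.1 hb).2
        rw [← this]; exact ⟨rfl, rfl⟩) hΦ y
  choose xs hxs1 hxs2 using hsc
  let x : V → ℕ := fun b => xs (lab b) b
  have hcov : Cover (fun c u v => u = v ∨ min (x u) (x v) ≤ cdg col A c u v) B (I.card * f) := by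
    apply Cover.fibers B I lab hlab
    intro i _
    set P := B.filter (fun b => lab b = i) with hP
    let χ : V → V → Option ℕ := fun u v =>
      if min (x u) (x v) ≤ w i u v then
        some (if cdg col A i.2 u v ≤ cdg col A i.1 u v then i.1 else i.2) else none
    have := hRT V χ P (fun u v => by
        simp only [χ, w, cdg_comm col A _ u v, min_comm (x u) (x v)])
      ⟨fun _ => {i.1, i.2}, fun u _ => ⟨Finset.card_le_two, fun v _ c h => by
        simp only [χ] at h
        split_ifs at h <;> simp_all⟩⟩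
      (fun b hb => by
        refine le_trans (Nat.mul_le_mul_left _ (Finset.card_le_card ?_)) (hxs1 i b hb)
        intro b' hb'
        obtain ⟨e1, e2⟩ := Finset.mem_filter.1 hb'
        refine Finset.mem_filter.2 ⟨e1, ?_⟩
        have e3 : x b = xs i b := by
          simp only [x]; rw [(Finset.mem_filter.1 hb).2]
        rw [← e3]
        by_contra hlt
        have : min (x b) (x b') ≤ w i b b' := (min_le_left _ _).trans (by omega)
        simp only [χ, if_pos this] at e2
        cases e2)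
    refine this.imp ?_
    rintro c u _ v _ (h | h)
    · exact Or.inl h
    · right
      simp only [χ] at h
      by_cases h' : min (x u) (x v) ≤ w i u v
      · rw [if_pos h'] at h
        have h := Option.some.inj h
        simp only [w] at h'
        split_ifs at h with h''
        · rw [← h]; exact h'.trans (max_le le_rfl h'')
        · rw [← h]; exact h'.trans (max_le (by omega) le_rfl)
      · rw [if_neg h'] at h; cases h
  obtain ⟨Y, hY, hYc, hc⟩ := lift_scale' (Rel fun u v => some (col u v)) hcov A hd x (by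
      intro y
      have e1 : (B.filter fun b => x b ≤ y).card =
          ∑ i ∈ I, ((B.filter (fun b => lab b = i)).filter fun b => xs i b ≤ y).card := by
        rw [Finset.card_eq_sum_card_fiberwise (f := lab) (t := I)
          (fun b hb => hlab b (Finset.mem_filter.1 hb).1)]
        apply Finset.sum_congr rfl
        intro i _
        congr 1
        ext b
        simp only [Finset.mem_filter, x]
        constructor
        · rintro ⟨⟨e1, e2⟩, e3⟩; exact ⟨⟨e1, e3⟩, e3 ▸ e2⟩
        · rintro ⟨⟨e1, e2⟩, e3⟩; exact ⟨⟨e1, e2 ▸ e3⟩, e2⟩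
      have e2 := Finset.sum_le_card_nsmul I _ y (fun i _ => hxs2 i y)
      rw [← Finset.mul_sum, ← e1, smul_eq_mul] at e2
      have e3 : k * k * (2 * (B.filter fun b => x b ≤ y).card) ≤ k * k * y := by
        have := Nat.mul_le_mul_right y hI
        nlinarith
      exact Nat.le_of_mul_le_mul_left e3 (by positivity))
    (fun _ _ _ => Or.inl rfl) (by
      rintro c u _ v _ (h | h)
      · exact Or.inl h
      · refine Or.inr ⟨_, Finset.filter_subset _ _, h, fun a ha => ?_⟩
        obtain ⟨_, e1, e2⟩ := Finset.mem_filter.1 ha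
        exact ⟨Or.inr (congrArg some ((hsym u a).trans e1)), Or.inr (congrArg some e2)⟩)
  exact ⟨Y, hY, hYc, hc.mono (Nat.mul_le_mul_right _ hI)⟩

end Pool.Agent.Lib.MP_b89653_co
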