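import Mathlib

set_option autoImplicit false

namespace Pool.Agent.Lib.MP_b89653_co

open Finset

variable {V : Type*}

/-- A list is a cyclic chain for the relation `R`. -/
def Cyc (R : V → V → Prop) : List V → Prop
  | [] => True
  | v :: l => List.IsChain R (v :: (l ++ [v]))

/-- `S` is partitioned into at most `m` cyclic lists, each a cyclic chain for some colour. -/
def Cover (R : ℕ → V → V → Prop) (S : Finset V) (m : ℕ) : Prop :=
  ∃ L : List (List V), L.length ≤ m ∧ L.flatten.Nodup ∧ (∀ v, v ∈ L.flatten ↔ v ∈ S) ∧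
    ∀ l ∈ L, ∃ c, Cyc (R c) l

lemma Cyc.imp {R R' : V → V → Prop} {l : List V} (h : Cyc R l)
    (hR : ∀ u ∈ l, ∀ v ∈ l, R u v → R' u v) : Cyc R' l := by
  cases l with
  | nil => trivial
  | cons v l =>
    unfold Cyc at *
    refine List.IsChain.imp_of_mem_imp ?_ h
    intro a b ha hb hab
    apply hR a _ b _ hab
    · simp only [List.mem_cons, List.mem_append, List.not_mem_nil, or_false] at ha ⊢
      tauto
    · simp only [List.mem_cons, List.mem_append, List.not_mem_nil, or_false] at hb ⊢
      tauto

lemma Cover.mono {R : ℕ → V → V → Prop} {S : Finset V} {m m' : ℕ} (h : Cover R S m)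
    (hm : m ≤ m') : Cover R S m' := by
  obtain ⟨L, h1, h2, h3, h4⟩ := h
  exact ⟨L, h1.trans hm, h2, h3, h4⟩

lemma Cover.imp {R R' : ℕ → V → V → Prop} {S : Finset V} {m : ℕ} (h : Cover R S m)
    (hR : ∀ c, ∀ u ∈ S, ∀ v ∈ S, R c u v → R' c u v) : Cover R' S m := by
  obtain ⟨L, h1, h2, h3, h4⟩ := h
  refine ⟨L, h1, h2, h3, fun l hl => ?_⟩
  obtain ⟨c, hc⟩ := h4 l hl
  refine ⟨c, hc.imp fun u hu v hv huv => hR c u ?_ v ?_ huv⟩
  · exact (h3 u).1 (List.mem_flatten.2 ⟨l, hl, hu⟩)
  · exact (h3 v).1 (List.mem_flatten.2 ⟨l, hl, hv⟩)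

lemma Cover.empty (R : ℕ → V → V → Prop) (m : ℕ) : Cover R ∅ m :=
  ⟨[], by simp, by simp, by simp, by simp⟩

lemma Cover.union [DecidableEq V] {R : ℕ → V → V → Prop} {S T : Finset V} {m m' : ℕ}
    (h : Cover R S m) (h' : Cover R T m') (hd : Disjoint S T) : Cover R (S ∪ T) (m + m') := by
  obtain ⟨L, h1, h2, h3, h4⟩ := h
  obtain ⟨L', h1', h2', h3', h4'⟩ := h'
  refine ⟨L ++ L', by simp; omega, ?_, ?_, ?_⟩
  · rw [List.flatten_append, List.nodup_append]
    refine ⟨h2, h2', ?_⟩
    intro a ha b hb hab
    subst hab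
    exact Finset.disjoint_left.1 hd ((h3 a).1 ha) ((h3' a).1 hb)
  · intro v
    rw [List.flatten_append, List.mem_append, h3, h3', Finset.mem_union]
  · intro l hl
    rcases List.mem_append.1 hl with hl | hl
    · exact h4 l hl
    · exact h4' l hl

lemma Cover.congr {R : ℕ → V → V → Prop} {S T : Finset V} {m : ℕ} (h : Cover R S m)
    (hST : S = T) : Cover R T m := hST ▸ h

lemma Cover.of_cyc [DecidableEq V] {R : ℕ → V → V → Prop} {l : List V} {c : ℕ}
    (hl : l.Nodup) (h : Cyc (R c) l) : Cover R l.toFinset 1 :=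
  ⟨[l], by simp, by simpa using hl, by simp, by simpa using ⟨c, h⟩⟩

lemma Cover.single {R : ℕ → V → V → Prop} {v : V} {c : ℕ} (h : R c v v) :
    Cover R {v} 1 := by
  classical
  have := Cover.of_cyc (R := R) (l := [v]) (c := c) (by simp) (by simpa [Cyc] using h)
  simpa using this

lemma Cover.biUnion [DecidableEq V] {ι : Type*} {R : ℕ → V → V → Prop} (I : Finset ι)
    (S : ι → Finset V) (m : ℕ) (h : ∀ i ∈ I, Cover R (S i) m)
    (hd : ∀ i ∈ I, ∀ j ∈ I, i ≠ j → Disjoint (S i) (S j)) :
    Cover R (I.biUnion S) (I.card * m) := by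
  classical
  induction I using Finset.induction_on with
  | empty => simpa using Cover.empty R 0
  | insert i I hi ih =>
    rw [Finset.biUnion_insert, Finset.card_insert_of_notMem hi, add_mul, one_mul, add_comm]
    apply Cover.union (h i (by simp))
    · apply ih
      · intro j hj; exact h j (by simp [hj])
      · intro j hj k hk; exact hd j (by simp [hj]) k (by simp [hk])
    · rw [Finset.disjoint_biUnion_right]
      intro j hj
      apply hd i (by simp) j (by simp [hj])
      rintro rfl
      exact hi hj

lemma Cover.singles {R : ℕ → V → V → Prop} (S : Finset V) (h : ∀ v ∈ S, R 0 v v) :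
    Cover R S S.card := by
  classical
  have := Cover.biUnion (R := R) S (fun v => {v}) 1 (fun v hv => Cover.single (h v hv))
    (fun i _ j _ hij => by simpa using hij)
  simpa using this

/-- Partition by a labelling function. -/
lemma Cover.fibers [DecidableEq V] {ι : Type*} [DecidableEq ι] {R : ℕ → V → V → Prop}
    (S : Finset V) (I : Finset ι) (f : V → ι) (hf : ∀ v ∈ S, f v ∈ I) (m : ℕ)
    (h : ∀ i ∈ I, Cover R (S.filter fun v => f v = i) m) : Cover R S (I.card * m) := by
  have := Cover.biUnion (R := R) I (fun i => S.filter fun v => f v = i) m h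
    (fun i _ j _ hij => by
      rw [Finset.disjoint_left]
      intro v hv hv'
      simp only [Finset.mem_filter] at hv hv'
      exact hij (hv.2.symm.trans hv'.2))
  refine this.congr ?_
  ext v
  simp only [Finset.mem_biUnion, Finset.mem_filter]
  constructor
  · rintro ⟨i, _, hv, _⟩; exact hv
  · intro hv; exact ⟨f v, hf v hv, hv, rfl⟩

/-! ### Expanding cycles -/

lemma path_expand [DecidableEq V] (R' : V → V → Prop) (z : V) :
    ∀ (l : List V) (v : V), (v :: l).Nodup → List.IsChain R' (v :: (l ++ [z])) →
      ∃ nxt : V → V, (v :: l).map nxt = l ++ [z] ∧ (∀ u ∈ v :: l, R' u (nxt u)) ∧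
        ∀ (R : V → V → Prop) (p : V → List V),
          (∀ u ∈ v :: l, List.IsChain R (u :: (p u ++ [nxt u]))) →
          List.IsChain R (v :: ((p v ++ l.flatMap (fun u => u :: p u)) ++ [z])) := by
  intro l
  induction l with
  | nil =>
    intro v _ hc
    refine ⟨fun _ => z, by simp, by simpa using hc, ?_⟩
    intro R p h
    simpa using h v (by simp)
  | cons w l ih =>
    intro v hnd hc
    have hnd' : (w :: l).Nodup := (List.nodup_cons.1 hnd).2
    have hv : v ∉ w :: l := (List.nodup_cons.1 hnd).1
    have hc' : R' v w ∧ List.IsChain R' (w :: (l ++ [z])) := by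
      simpa using hc
    obtain ⟨nxt, h1, h2, h3⟩ := ih w hnd' hc'.2
    have hupd : ∀ u ∈ w :: l, Function.update nxt v w u = nxt u := by
      intro u hu
      apply Function.update_of_ne
      rintro rfl
      exact hv hu
    refine ⟨Function.update nxt v w, ?_, ?_, ?_⟩
    · rw [List.map_cons, Function.update_self, List.map_congr_left hupd, h1]
      simp
    · intro u hu
      rcases List.mem_cons.1 hu with rfl | hu
      · rw [Function.update_self]; exact hc'.1
      · rw [hupd u hu]; exact h2 u hu
    · intro R p h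
      have e1 := h v (by simp)
      rw [Function.update_self] at e1
      have e2 := h3 R p (fun u hu => by
        have := h u (List.mem_cons_of_mem _ hu)
        rwa [hupd u hu] at this)
      have : v :: ((p v ++ (w :: l).flatMap (fun u => u :: p u)) ++ [z]) =
          (v :: p v) ++ w :: ((p w ++ l.flatMap (fun u => u :: p u)) ++ [z]) := by
        simp
      rw [this, List.isChain_split]
      exact ⟨by simpa using e1, e2⟩

lemma cyc_expand [DecidableEq V] (R' : V → V → Prop) (l : List V) (hnd : l.Nodup)
    (hc : Cyc R' l) :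
    ∃ nxt : V → V, (l.map nxt).Perm l ∧ (∀ u ∈ l, R' u (nxt u)) ∧
      ∀ (R : V → V → Prop) (p : V → List V),
        (∀ u ∈ l, List.IsChain R (u :: (p u ++ [nxt u]))) →
        Cyc R (l.flatMap (fun u => u :: p u)) := by
  cases l with
  | nil => exact ⟨id, by simp, by simp, fun _ _ _ => trivial⟩
  | cons v l =>
    obtain ⟨nxt, h1, h2, h3⟩ := path_expand R' v l v hnd hc
    refine ⟨nxt, ?_, h2, ?_⟩
    · rw [h1]; exact List.perm_append_singleton v l
    · intro R p h
      have := h3 R p h
      simpa [Cyc] using this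

lemma lists_expand [DecidableEq V] (R' : ℕ → V → V → Prop) :
    ∀ (L : List (List V)), L.flatten.Nodup → (∀ l ∈ L, ∃ c, Cyc (R' c) l) →
      ∃ (nxt : V → V) (κ : V → ℕ), (L.flatten.map nxt).Perm L.flatten ∧
        (∀ u ∈ L.flatten, R' (κ u) u (nxt u)) ∧
        ∀ (R : ℕ → V → V → Prop) (p : V → List V),
          (∀ u ∈ L.flatten, List.IsChain (R (κ u)) (u :: (p u ++ [nxt u]))) →
          ∀ l ∈ L, ∃ c, Cyc (R c) (l.flatMap (fun u => u :: p u)) := by
  intro L
  induction L with
  | nil => intro _ _; exact ⟨id, fun _ => 0, by simp, by simp, by simp⟩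
  | cons l L ih =>
    intro hnd hc
    rw [List.flatten_cons, List.nodup_append] at hnd
    obtain ⟨hl, hL, hd⟩ := hnd
    obtain ⟨nxt, κ, h1, h2, h3⟩ := ih hL (fun l' hl' => hc l' (by simp [hl']))
    obtain ⟨c, hcl⟩ := hc l (by simp)
    obtain ⟨nx, g1, g2, g3⟩ := cyc_expand (R' c) l hl hcl
    have hout : ∀ u ∈ L.flatten, u ∉ l := fun u hu hul => hd u hul u hu rfl
    refine ⟨fun u => if u ∈ l then nx u else nxt u, fun u => if u ∈ l then c else κ u,
      ?_, ?_, ?_⟩
    · rw [List.flatten_cons, List.map_append]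
      apply List.Perm.append
      · rw [List.map_congr_left (g := nx) (fun u hu => by simp [hu])]; exact g1
      · rw [List.map_congr_left (g := nxt) (fun u hu => by simp [hout u hu])]; exact h1
    · intro u hu
      rw [List.flatten_cons, List.mem_append] at hu
      rcases hu with hu | hu
      · simpa [hu] using g2 u hu
      · simpa [hout u hu] using h2 u hu
    · intro R p h l' hl'
      rcases List.mem_cons.1 hl' with rfl | hl'
      · refine ⟨c, g3 (R c) p fun u hu => ?_⟩
        have := h u (by rw [List.flatten_cons, List.mem_append]; exact Or.inl hu)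
        simpa [hu] using this
      · refine h3 R p (fun u hu => ?_) l' hl'
        have := h u (by rw [List.flatten_cons, List.mem_append]; exact Or.inr hu)
        simpa [hout u hu] using this

/-- The successor structure of a cover, and the possibility to subdivide edges. -/
lemma Cover.expand [DecidableEq V] {R' : ℕ → V → V → Prop} {S : Finset V} {m : ℕ}
    (h : Cover R' S m) :
    ∃ (nxt : V → V) (κ : V → ℕ), (∀ u ∈ S, nxt u ∈ S) ∧ Set.InjOn nxt S ∧
      (∀ u ∈ S, R' (κ u) u (nxt u)) ∧
      ∀ (R : ℕ → V → V → Prop) (T : Finset V) (w : V → V), T ⊆ S → Set.InjOn w T →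
        (∀ u ∈ T, w u ∉ S) →
        (∀ u ∈ T, R (κ u) u (w u) ∧ R (κ u) (w u) (nxt u)) →
        (∀ u ∈ S, u ∉ T → R (κ u) u (nxt u)) → Cover R (S ∪ T.image w) m := by
  obtain ⟨L, h1, h2, h3, h4⟩ := h
  obtain ⟨nxt, κ, g1, g2, g3⟩ := lists_expand R' L h2 h4
  refine ⟨nxt, κ, ?_, ?_, ?_, ?_⟩
  · intro u hu
    rw [← h3, ← g1.mem_iff]
    exact List.mem_map_of_mem ((h3 u).2 hu)
  · intro u hu v hv huv
    have : (L.flatten.map nxt).Nodup := g1.nodup_iff.2 h2
    exact List.inj_on_of_nodup_map this ((h3 u).2 hu) ((h3 v).2 hv) huv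
  · intro u hu
    exact g2 u ((h3 u).2 hu)
  · intro R T w hTS hw hwS hT hnT
    set p : V → List V := fun u => if u ∈ T then [w u] else [] with hp
    have hfl : (L.map (fun l => l.flatMap (fun u => u :: p u))).flatten =
        L.flatten.flatMap (fun u => u :: p u) := by
      clear g1 g2 g3 h1 h2 h3 h4
      induction L with
      | nil => simp
      | cons l L ih => simp [List.flatMap_append, ih]
    refine ⟨L.map (fun l => l.flatMap (fun u => u :: p u)), by simpa using h1, ?_, ?_, ?_⟩
    · rw [hfl, List.nodup_flatMap]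
      constructor
      · intro u hu
        by_cases huT : u ∈ T
        · have : u ≠ w u := by
            intro e
            exact hwS u huT (e ▸ hTS huT)
          simp [hp, huT, this]
        · simp [hp, huT]
      · refine List.Pairwise.imp_of_mem ?_ h2
        intro a b ha hb hab
        have haS := (h3 a).1 ha
        have hbS := (h3 b).1 hb
        simp only [Function.onFun]
        rw [List.disjoint_left]
        intro x hx hx'
        by_cases haT : a ∈ T <;> by_cases hbT : b ∈ T <;>
          simp only [hp, haT, hbT, if_true, if_false, List.mem_cons, List.not_mem_nil,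
            or_false] at hx hx'
        · rcases hx with rfl | rfl <;> rcases hx' with e | e
          · exact hab e
          · exact hwS b hbT (e ▸ haS)
          · exact hwS a haT (e ▸ hbS)
          · exact hab (hw haT hbT e)
        · rcases hx with rfl | rfl
          · exact hab hx'
          · exact hwS a haT (hx' ▸ hbS)
        · rcases hx' with e | e
          · exact hab (hx.symm.trans e)
          · exact hwS b hbT (e ▸ hx ▸ haS)
        · exact hab (hx.symm.trans hx')
    · intro v
      rw [hfl, List.mem_flatMap, Finset.mem_union, Finset.mem_image]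
      constructor
      · rintro ⟨u, hu, hv⟩
        rcases List.mem_cons.1 hv with rfl | hv
        · exact Or.inl ((h3 v).1 hu)
        · by_cases huT : u ∈ T
          · simp only [hp, huT, if_true, List.mem_singleton] at hv
            exact Or.inr ⟨u, huT, hv.symm⟩
          · simp [hp, huT] at hv
      · rintro (hv | ⟨u, huT, rfl⟩)
        · exact ⟨v, (h3 v).2 hv, by simp⟩
        · exact ⟨u, (h3 u).2 (hTS huT), by simp [hp, huT]⟩
    · intro l' hl'
      obtain ⟨l, hl, rfl⟩ := List.mem_map.1 hl'
      refine g3 R p (fun u hu => ?_) l hl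
      have huS := (h3 u).1 hu
      by_cases huT : u ∈ T
      · simpa [hp, huT] using hT u huT
      · simpa [hp, huT] using hnT u huS huT

end Pool.Agent.Lib.MP_b89653_co
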