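import Pool.Agent.Lib.MP_b89653_co.Posa

set_option autoImplicit false

namespace Pool.Agent.Lib.MP_b89653_co

open Finset

variable {V : Type*}

/-- Equal, or joined by an edge of colour `c`. -/
def Rel (χ : V → V → Option ℕ) (c : ℕ) (u v : V) : Prop := u = v ∨ χ u v = some c

/-- Every vertex of `V0` sees at most `K` colours inside `V0`. -/
def Loc (χ : V → V → Option ℕ) (K : ℕ) (V0 : Finset V) : Prop :=
  ∃ Cs : V → Finset ℕ, ∀ u ∈ V0, (Cs u).card ≤ K ∧ ∀ v ∈ V0, ∀ c, χ u v = some c → c ∈ Cs u

lemma popular [DecidableEq V] (f : V → Option ℕ) (C : Finset ℕ) (K : ℕ) (hC : C.card ≤ K)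
    (W : Finset V) (hW : W.Nonempty) (hf : ∀ a ∈ W, ∀ c, f a = some c → c ∈ C)
    (hn : 2 * (W.filter fun a => f a = none).card ≤ W.card) :
    ∃ c ∈ C, W.card ≤ 2 * K * (W.filter fun a => f a = some c).card := by
  have hWpos := hW.card_pos
  have hsub : W ⊆ (W.filter fun a => f a = none) ∪
      C.biUnion (fun c => W.filter fun a => f a = some c) := by
    intro a ha
    simp only [Finset.mem_union, Finset.mem_filter, Finset.mem_biUnion]
    cases hfa : f a with
    | none => exact Or.inl ⟨ha, rfl⟩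
    | some c => exact Or.inr ⟨c, hf a ha c hfa, ha, rfl⟩
  have h1 := (Finset.card_le_card hsub).trans (Finset.card_union_le _ _)
  rcases C.eq_empty_or_nonempty with rfl | hCne
  · simp at h1; omega
  obtain ⟨c, hc, hmax⟩ := Finset.exists_max_image C
    (fun c => (W.filter fun a => f a = some c).card) hCne
  refine ⟨c, hc, ?_⟩
  have h2 : (C.biUnion (fun c => W.filter fun a => f a = some c)).card ≤
      C.card * (W.filter fun a => f a = some c).card := by
    refine Finset.card_biUnion_le.trans ?_
    simpa using Finset.sum_le_card_nsmul C _ _ hmax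
  have h3 : C.card * (W.filter fun a => f a = some c).card ≤
      K * (W.filter fun a => f a = some c).card := Nat.mul_le_mul_right _ hC
  nlinarith

/-- The ratio in the local bipartite lemma. -/
def rho (K : ℕ) : ℕ := (2 * K) ^ K * (32 * K * K)

lemma rho_pos {K : ℕ} (hK : 1 ≤ K) : 0 < rho K := by
  unfold rho; positivity

/-- Robust local bipartite covering lemma. -/
lemma rlb [DecidableEq V] {K : ℕ} (hK : 1 ≤ K) (χ : V → V → Option ℕ)
    (hsym : ∀ u v, χ u v = χ v u) (V0 : Finset V) (hloc : Loc χ K V0) (L W : Finset V)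
    (hL0 : L ⊆ V0) (hW0 : W ⊆ V0) (hd : Disjoint L W) (hW : W.Nonempty)
    (hL : rho K * L.card ≤ W.card)
    (hn : ∀ b ∈ L, rho K * (W.filter fun a => χ b a = none).card ≤ W.card) :
    ∃ Y ⊆ W, Cover (Rel χ) (L ∪ Y) (K * (4 * K)) := by
  classical
  obtain ⟨Cs, hCs⟩ := hloc
  have hWpos := hW.card_pos
  let P : ℕ → Prop := fun i => ∃ (F : Finset ℕ) (W' : Finset V), F.card = i ∧ W' ⊆ W ∧
    (∀ a ∈ W', F ⊆ Cs a) ∧ W.card ≤ (2 * K) ^ i * W'.card
  have hP0 : P 0 := ⟨∅, W, rfl, subset_rfl, by simp, by simp⟩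
  have hne : ∀ i (W' : Finset V), W.card ≤ (2 * K) ^ i * W'.card → W'.Nonempty := by
    intro i W' h
    rw [← Finset.card_pos]
    rcases Nat.eq_zero_or_pos W'.card with h0 | h0
    · rw [h0] at h; omega
    · exact h0
  have hbound : ∀ i, P i → i ≤ K := by
    rintro i ⟨F, W', rfl, h1, h2, h3⟩
    obtain ⟨a, ha⟩ := hne _ _ h3
    exact (Finset.card_le_card (h2 a ha)).trans (hCs a (hW0 (h1 ha))).1
  obtain ⟨F, W', hF, h1, h2, h3⟩ := Nat.findGreatest_spec (P := P) (Nat.zero_le K) hP0
  have hiK : Nat.findGreatest P K ≤ K := Nat.findGreatest_le K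
  have hW' : W'.Nonempty := hne _ _ h3
  have hpow : (2 * K) ^ Nat.findGreatest P K ≤ (2 * K) ^ K :=
    Nat.pow_le_pow_right (by omega) hiK
  have h3' : W.card ≤ (2 * K) ^ K * W'.card := h3.trans (Nat.mul_le_mul_right _ hpow)
  have hcancel : ∀ z : ℕ, rho K * z ≤ W.card → 32 * K * K * z ≤ W'.card := by
    intro z hz
    have : (2 * K) ^ K * (32 * K * K * z) ≤ (2 * K) ^ K * W'.card := by
      calc (2 * K) ^ K * (32 * K * K * z) = rho K * z := by unfold rho; ring
        _ ≤ _ := hz.trans h3'
    exact Nat.le_of_mul_le_mul_left this (by positivity)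
  have hpop : ∀ b ∈ L, ∃ c ∈ F, W'.card ≤ 2 * K * (W'.filter fun a => χ b a = some c).card := by
    intro b hb
    have hb0 := hCs b (hL0 hb)
    have hnone : 2 * (W'.filter fun a => χ b a = none).card ≤ W'.card := by
      have e1 := hcancel _ (hn b hb)
      have e2 : (W'.filter fun a => χ b a = none).card ≤ (W.filter fun a => χ b a = none).card :=
        Finset.card_le_card (Finset.filter_subset_filter _ h1)
      have e3 : 1 ≤ K * K := Nat.mul_pos hK hK
      nlinarith
    obtain ⟨c, _, hc⟩ := popular (χ b) (Cs b) K hb0.1 W' hW'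
      (fun a ha c h => hb0.2 a (hW0 (h1 ha)) c h) hnone
    refine ⟨c, ?_, hc⟩
    by_contra hcF
    have hP : P (Nat.findGreatest P K + 1) := by
      refine ⟨insert c F, W'.filter fun a => χ b a = some c, ?_, ?_, ?_, ?_⟩
      · rw [Finset.card_insert_of_notMem hcF, hF]
      · exact (Finset.filter_subset _ _).trans h1
      · intro a ha
        obtain ⟨ha1, ha2⟩ := Finset.mem_filter.1 ha
        apply Finset.insert_subset _ (h2 a ha1)
        exact (hCs a (hW0 (h1 ha1))).2 b (hL0 hb) c (by rw [hsym]; exact ha2)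
      · calc W.card ≤ (2 * K) ^ Nat.findGreatest P K * W'.card := h3
          _ ≤ (2 * K) ^ Nat.findGreatest P K *
              (2 * K * (W'.filter fun a => χ b a = some c).card) := Nat.mul_le_mul_left _ hc
          _ = _ := by ring
    exact Nat.findGreatest_is_greatest (Nat.lt_succ_self _) (hbound _ hP) hP
  choose! κ hκF hκ using hpop
  have hcov : Cover (fun c u v => L.card ≤ ((W'.filter fun a => χ u a = some c) ∩
      (W'.filter fun a => χ v a = some c)).card) L (F.card * (2 * (2 * K))) := by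
    apply Cover.fibers L F κ hκF
    intro c _
    have := dense_cover (L.filter fun v => κ v = c) W' (fun u => W'.filter fun a => χ u a = some c)
      (2 * K) L.card c hW' (fun s _ => Finset.filter_subset _ _)
      (fun s hs => by
        obtain ⟨hs1, hs2⟩ := Finset.mem_filter.1 hs
        rw [← hs2]; exact hκ s hs1)
      (by have := hcancel _ hL; nlinarith)
    refine this.imp ?_
    rintro c' u _ v _ ⟨rfl, h⟩
    exact h
  obtain ⟨Y, hY, _, hcY, _⟩ := lift_uniform (Rel χ) hcov W' (hd.mono_right h1) (by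
    intro c u _ v _ h
    refine h.trans (Finset.card_le_card ?_)
    intro a ha
    simp only [Finset.mem_inter, Finset.mem_filter] at ha ⊢
    exact ⟨ha.1.1, Or.inr ha.1.2, Or.inr (by rw [hsym]; exact ha.2.2)⟩)
  refine ⟨Y, hY.trans h1, hcY.mono ?_⟩
  rw [hF]
  nlinarith

/-- Common neighbours in colour `c`. -/
def cod [DecidableEq V] (χ : V → V → Option ℕ) (V0 : Finset V) (c : ℕ) (u v : V) : ℕ :=
  (V0.filter fun a => χ u a = some c ∧ χ a v = some c).card

lemma exists_le_avg {ι : Type*} (I : Finset ι) (hI : I.Nonempty) (f : ι → ℕ) (B : ℕ)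
    (h : ∑ i ∈ I, f i ≤ I.card * B) : ∃ i ∈ I, f i ≤ B := by
  apply Finset.exists_le_of_sum_le hI
  simpa using h

/-- Many edges of one colour lie in many triangles of that colour. -/
theorem rich_triangles (K : ℕ) : ∃ M : ℕ, 1 ≤ M ∧
    ∀ (V : Type) [DecidableEq V] (χ : V → V → Option ℕ) (V0 : Finset V), (∀ u v, χ u v = χ v u) → V0.Nonempty →
      Loc χ K V0 →
      M * ((V0 ×ˢ V0).filter fun p => χ p.1 p.2 = none).card ≤ V0.card * V0.card →
      ∃ c, V0.card * V0.card ≤ M * ((V0 ×ˢ V0).filter fun p => χ p.1 p.2 = some c ∧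
        V0.card ≤ M * cod χ V0 c p.1 p.2).card := by
  classical
  induction K with
  | zero =>
    refine ⟨2, by norm_num, ?_⟩
    intro V _ χ V0 _ hne ⟨Cs, hCs⟩ hn
    exfalso
    have : ((V0 ×ˢ V0).filter fun p => χ p.1 p.2 = none) = V0 ×ˢ V0 := by
      apply Finset.filter_true_of_mem
      intro p hp
      obtain ⟨h1, h2⟩ := Finset.mem_product.1 hp
      cases h : χ p.1 p.2 with
      | none => rfl
      | some c =>
        have e1 := (hCs p.1 h1).2 p.2 h2 c h
        have e2 := (hCs p.1 h1).1
        have := Finset.card_pos.2 ⟨c, e1⟩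
        omega
    rw [this, Finset.card_product] at hn
    have := hne.card_pos
    nlinarith
  | succ K ih =>
    obtain ⟨M', hM', ih⟩ := ih
    set E := 2 * (K + 1) with hE
    refine ⟨4 * (E * E) * M', by have : 1 ≤ E := by omega
                                 nlinarith [Nat.mul_pos this this], ?_⟩
    set M := 4 * (E * E) * M' with hM
    intro V _ χ V0 hsym hne ⟨Cs, hCs⟩ hn
    have hE1 : 1 ≤ E := by omega
    have hM4 : 4 ≤ M := by nlinarith [Nat.mul_pos hE1 hE1]
    set N := V0.card with hN
    have hNpos : 0 < N := hne.card_pos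
    -- poor pairs at v
    let poor : V → Finset (V × V) := fun v => (V0 ×ˢ V0).filter fun p =>
      ∃ c, χ p.1 p.2 = some c ∧ χ p.1 v = some c ∧ χ v p.2 = some c ∧ M * cod χ V0 c p.1 p.2 < N
    let nd : V → ℕ := fun v => (V0.filter fun a => χ v a = none).card
    have hsum1 : ∑ v ∈ V0, M * (poor v).card ≤ N * (N * N) := by
      have : ∑ v ∈ V0, (poor v).card = ∑ p ∈ V0 ×ˢ V0, (V0.filter fun v =>
          ∃ c, χ p.1 p.2 = some c ∧ χ p.1 v = some c ∧ χ v p.2 = some c ∧
            M * cod χ V0 c p.1 p.2 < N).card := by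
        simp only [poor, Finset.card_filter]
        exact Finset.sum_comm
      rw [← Finset.mul_sum, this, Finset.mul_sum]
      have hb : ∀ p ∈ V0 ×ˢ V0, M * (V0.filter fun v =>
          ∃ c, χ p.1 p.2 = some c ∧ χ p.1 v = some c ∧ χ v p.2 = some c ∧
            M * cod χ V0 c p.1 p.2 < N).card ≤ N := by
        intro p _
        rcases (V0.filter fun v =>
          ∃ c, χ p.1 p.2 = some c ∧ χ p.1 v = some c ∧ χ v p.2 = some c ∧
            M * cod χ V0 c p.1 p.2 < N).eq_empty_or_nonempty with he | ⟨v, hv⟩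
        · simp [he]
        · obtain ⟨_, c, hc1, _, _, hc4⟩ := Finset.mem_filter.1 hv
          refine le_trans (Nat.mul_le_mul_left _ (Finset.card_le_card ?_)) hc4.le
          intro a ha
          obtain ⟨ha0, c', e1, e2, e3, _⟩ := Finset.mem_filter.1 ha
          have : c' = c := by rw [hc1] at e1; exact (Option.some.inj e1).symm
          subst this
          exact Finset.mem_filter.2 ⟨ha0, e2, e3⟩
      have := Finset.sum_le_card_nsmul _ _ _ hb
      rw [Finset.card_product, smul_eq_mul] at this
      nlinarith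
    have hsum2 : ∑ v ∈ V0, nd v = ((V0 ×ˢ V0).filter fun p => χ p.1 p.2 = none).card := by
      simp only [nd, Finset.card_filter]
      rw [Finset.sum_product]
    obtain ⟨v, hv0, hv⟩ := exists_le_avg V0 hne (fun v => M * (poor v).card + M * (N * nd v))
      (2 * (N * N)) (by
        rw [Finset.sum_add_distrib]
        have : ∑ v ∈ V0, M * (N * nd v) = N * (M * ∑ v ∈ V0, nd v) := by
          rw [Finset.mul_sum, Finset.mul_sum]
          exact Finset.sum_congr rfl fun _ _ => by ring
        rw [this, hsum2]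
        have := Nat.mul_le_mul_left N hn
        nlinarith)
    have hnd : 2 * nd v ≤ N := by
      have : N * (2 * (2 * nd v)) ≤ N * (2 * N) := by nlinarith
      have := Nat.le_of_mul_le_mul_left this hNpos
      omega
    obtain ⟨c, _, hc⟩ := popular (χ v) (Cs v) (K + 1) (hCs v hv0).1 V0 hne
      (fun a ha c h => (hCs v hv0).2 a ha c h) hnd
    set W := V0.filter fun a => χ v a = some c with hW
    have hWE : N ≤ E * W.card := hc
    have hWne : W.Nonempty := by
      rw [← Finset.card_pos]
      rcases Nat.eq_zero_or_pos W.card with h0 | h0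
      · rw [h0] at hWE; omega
      · exact h0
    have hW0 : W ⊆ V0 := Finset.filter_subset _ _
    by_cases hrich : N * N ≤ M * ((V0 ×ˢ V0).filter fun p => χ p.1 p.2 = some c ∧
        N ≤ M * cod χ V0 c p.1 p.2).card
    · exact ⟨c, hrich⟩
    push Not at hrich
    let χ' : V → V → Option ℕ := fun a b => if χ a b = some c then none else χ a b
    have hχ' : ∀ a b d, χ' a b = some d → χ a b = some d ∧ d ≠ c := by
      intro a b d h
      simp only [χ'] at h
      split_ifs at h with h'
      refine ⟨h, ?_⟩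
      rintro rfl
      exact h' h
    have hNN : N * N ≤ E * E * (W.card * W.card) := by nlinarith
    obtain ⟨d, hd⟩ := ih V χ' W (fun a b => by simp only [χ', hsym a b]) hWne
      ⟨fun u => (Cs u).erase c, fun u hu => by
        have hu0 := hW0 hu
        have hcu : c ∈ Cs u := (hCs u hu0).2 v hv0 c (by
          rw [hsym]; exact (Finset.mem_filter.1 hu).2)
        refine ⟨?_, fun a ha d h => ?_⟩
        · rw [Finset.card_erase_of_mem hcu]
          have := (hCs u hu0).1
          omega
        · obtain ⟨e1, e2⟩ := hχ' u a d h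
          exact Finset.mem_erase.2 ⟨e2, (hCs u hu0).2 a (hW0 ha) d e1⟩⟩ (by
        have hsub : ((W ×ˢ W).filter fun p => χ' p.1 p.2 = none) ⊆
            ((V0 ×ˢ V0).filter fun p => χ p.1 p.2 = none) ∪
            (((V0 ×ˢ V0).filter fun p => χ p.1 p.2 = some c ∧ N ≤ M * cod χ V0 c p.1 p.2) ∪
              poor v) := by
          intro p hp
          obtain ⟨hp1, hp2⟩ := Finset.mem_filter.1 hp
          obtain ⟨hp3, hp4⟩ := Finset.mem_product.1 hp1
          have hp0 : p ∈ V0 ×ˢ V0 := Finset.mem_product.2 ⟨hW0 hp3, hW0 hp4⟩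
          simp only [Finset.mem_union, Finset.mem_filter, poor]
          by_cases h : χ p.1 p.2 = some c
          · right
            by_cases h' : N ≤ M * cod χ V0 c p.1 p.2
            · exact Or.inl ⟨hp0, h, h'⟩
            · refine Or.inr ⟨hp0, c, h, ?_, (Finset.mem_filter.1 hp4).2, by omega⟩
              rw [hsym]; exact (Finset.mem_filter.1 hp3).2
          · left
            refine ⟨hp0, ?_⟩
            simpa [χ', h] using hp2
        have h1 := (Finset.card_le_card hsub).trans ((Finset.card_union_le _ _).trans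
          (Nat.add_le_add_left (Finset.card_union_le _ _) _))
        have h2 := Nat.mul_le_mul_left M h1
        have h3 : 4 * (E * E) * (M' * ((W ×ˢ W).filter fun p => χ' p.1 p.2 = none).card) ≤
            4 * (E * E) * (W.card * W.card) := by
          have : M * (poor v).card ≤ 2 * (N * N) := le_trans (Nat.le_add_right _ _) hv
          calc _ = M * ((W ×ˢ W).filter fun p => χ' p.1 p.2 = none).card := by rw [hM]; ring
            _ ≤ 4 * (N * N) := by nlinarith
            _ ≤ _ := by nlinarith
        exact Nat.le_of_mul_le_mul_left h3 (by positivity))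
    refine ⟨d, ?_⟩
    have hsub : ((W ×ˢ W).filter fun p => χ' p.1 p.2 = some d ∧
        W.card ≤ M' * cod χ' W d p.1 p.2) ⊆ ((V0 ×ˢ V0).filter fun p => χ p.1 p.2 = some d ∧
        N ≤ M * cod χ V0 d p.1 p.2) := by
      intro p hp
      obtain ⟨hp1, hp2, hp5⟩ := Finset.mem_filter.1 hp
      obtain ⟨hp3, hp4⟩ := Finset.mem_product.1 hp1
      refine Finset.mem_filter.2 ⟨Finset.mem_product.2 ⟨hW0 hp3, hW0 hp4⟩, (hχ' _ _ _ hp2).1, ?_⟩
      have : cod χ' W d p.1 p.2 ≤ cod χ V0 d p.1 p.2 := by
        apply Finset.card_le_card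
        intro a ha
        obtain ⟨e1, e2, e3⟩ := Finset.mem_filter.1 ha
        exact Finset.mem_filter.2 ⟨hW0 e1, (hχ' _ _ _ e2).1, (hχ' _ _ _ e3).1⟩
      calc N ≤ E * W.card := hWE
        _ ≤ E * (M' * cod χ V0 d p.1 p.2) :=
          Nat.mul_le_mul_left _ (hp5.trans (Nat.mul_le_mul_left _ this))
        _ = (E * M') * cod χ V0 d p.1 p.2 := by ring
        _ ≤ _ := Nat.mul_le_mul_right _ (by rw [hM]; nlinarith [Nat.mul_le_mul_right M' hE1])
    have h1 := Finset.card_le_card hsub
    calc N * N ≤ E * E * (W.card * W.card) := hNN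
      _ ≤ E * E * (M' * ((V0 ×ˢ V0).filter fun p => χ p.1 p.2 = some d ∧
          N ≤ M * cod χ V0 d p.1 p.2).card) :=
        Nat.mul_le_mul_left _ (hd.trans (Nat.mul_le_mul_left _ h1))
      _ = (E * E * M') * _ := by ring
      _ ≤ _ := Nat.mul_le_mul_right _ (by rw [hM]; nlinarith)

end Pool.Agent.Lib.MP_b89653_co
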