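import Mathlib

/-! A mean colouring that needs many monochromatic cycles. -/

set_option autoImplicit false

namespace Pool.Agent.Lib.MP_b89653_co.LB

open Finset SimpleGraph

/-- `N` groups of `g` vertices, and the vectors in `[k] ^ N`. -/
abbrev VV (N g k : ℕ) : Type := (Fin N × Fin g) ⊕ (Fin N → Fin k)

/-- The colours. -/
abbrev KK (N k : ℕ) : Type := Option ((Fin N × Fin k) ⊕ Sym2 ℕ)

variable {N g k : ℕ}

/-- The colour of a pair of vertices; `φ` gives the block of a vector. -/
def col (φ : (Fin N → Fin k) → ℕ) : VV N g k → VV N g k → KK N k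
  | .inl _, .inl _ => none
  | .inl a, .inr b => some (.inl (a.1, b a.1))
  | .inr b, .inl a => some (.inl (a.1, b a.1))
  | .inr b, .inr b' => some (.inr s(φ b, φ b'))

theorem col_symm (φ : (Fin N → Fin k) → ℕ) (x y : VV N g k) : col φ y x = col φ x y := by
  cases x <;> cases y <;> simp [col, Sym2.eq_swap]

/-- The colouring. -/
def lab (g : ℕ) (φ : (Fin N → Fin k) → ℕ) : TopEdgeLabeling (VV N g k) (KK N k) :=
  EdgeLabeling.mk (fun x y _ => col φ x y) fun x y _ => col_symm φ x y

theorem col_of_adj {φ : (Fin N → Fin k) → ℕ} {c : KK N k} {x y : VV N g k}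
    (h : ((lab g φ).labelGraph c).Adj x y) : col φ x y = c := by
  obtain ⟨_, h⟩ := (TopEdgeLabeling.labelGraph_adj x y).1 h
  exact h

theorem ncard_le {α β : Type} [Fintype α] (f : α → β) {S : Set β} (h : S ⊆ Set.range f) :
    S.ncard ≤ Fintype.card α := by
  refine (Set.ncard_le_ncard h (Set.finite_range f)).trans ?_
  rw [← Set.image_univ, ← Nat.card_eq_fintype_card, ← Set.ncard_univ]
  exact Set.ncard_image_le

theorem mean_le {M : ℕ} (φ : (Fin N → Fin k) → ℕ) (hφ : ∀ b, φ b < M) :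
    ∑ x : VV N g k, {c | ∃ y, ((lab g φ).labelGraph c).Adj x y}.ncard ≤
      N * g * (k + 1) + k ^ N * (N + M) := by
  rw [Fintype.sum_sum_type]
  refine add_le_add ((sum_le_card_nsmul _ _ (k + 1) fun a _ => ?_).trans_eq (by simp))
    ((sum_le_card_nsmul _ _ (N + M) fun b _ => ?_).trans_eq (by simp))
  · refine (ncard_le (fun o : Option (Fin k) => o.map fun j => Sum.inl (a.1, j)) ?_).trans_eq
      (by simp)
    rintro c ⟨y, hy⟩
    rw [← col_of_adj hy]
    cases y with
    | inl a' => exact ⟨none, rfl⟩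
    | inr b => exact ⟨some (b a.1), rfl⟩
  · refine (ncard_le (Sum.elim (fun i : Fin N => some (Sum.inl (i, b i)))
      fun m : Fin M => some (Sum.inr s(φ b, m.1))) ?_).trans_eq (by simp)
    rintro c ⟨y, hy⟩
    rw [← col_of_adj hy]
    cases y with
    | inl a => exact ⟨.inl a.1, rfl⟩
    | inr b' => exact ⟨.inr ⟨φ b', hφ b'⟩, rfl⟩

/-- The successor map of a cycle. -/
theorem exists_succ {V : Type} [DecidableEq V] {G : SimpleGraph V} {x : V} {p : G.Walk x x}
    (hp : p.IsCycle) : ∃ f : V → V, Set.InjOn f p.support.toFinset ∧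
      ∀ y ∈ p.support.toFinset, f y ∈ p.support.toFinset ∧ G.Adj y (f y) := by
  have h3 := hp.three_le_length
  have h : ∀ y ∈ p.support.toFinset, ∃ i, i < p.length ∧ p.getVert i = y := by
    intro y hy
    obtain ⟨i, h1, h2⟩ := Walk.mem_support_iff_exists_getVert.1 (List.mem_toFinset.1 hy)
    rcases h2.lt_or_eq with h2 | h2
    · exact ⟨i, h2, h1⟩
    · exact ⟨0, by omega, by rw [← h1, h2, p.getVert_zero, p.getVert_length]⟩
  choose! i h1 h2 using h
  refine ⟨fun y => p.getVert (i y + 1), fun y hy z hz e => ?_, fun y hy =>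
    ⟨List.mem_toFinset.2 (p.getVert_mem_support _), ?_⟩⟩
  · have := hp.getVert_injOn (show 1 ≤ i y + 1 ∧ i y + 1 ≤ p.length from ⟨by omega, h1 y hy⟩)
      (show 1 ≤ i z + 1 ∧ i z + 1 ≤ p.length from ⟨by omega, h1 z hz⟩) e
    rw [← h2 y hy, ← h2 z hz, Nat.succ_injective this]
  · have := p.adj_getVert_succ (h1 y hy)
    rwa [h2 y hy] at this

/-- What a part of the partition can cover. -/
def Ty (w : ℕ) (S : Finset (VV N g k)) (κ : Option (Fin N × Fin k)) (f : VV N g k → VV N g k) :
    Prop :=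
  (κ = none → (univ.filter fun b => Sum.inr b ∈ S).card ≤ 2 * w) ∧
    ∀ i j, κ = some (i, j) → Set.InjOn f S ∧
      ∀ b, Sum.inr b ∈ S → b i = j ∧ f (Sum.inr b) ∈ S ∧ ∃ a, f (Sum.inr b) = .inl (i, a)

theorem exists_ty {w : ℕ} (hw : 1 ≤ w) (φ : (Fin N → Fin k) → ℕ)
    (hφ : ∀ m, (univ.filter fun b => φ b = m).card ≤ w) (S : Finset (VV N g k))
    (h : S.card ≤ 2 ∨ ∃ (c : KK N k) (x : VV N g k) (p : ((lab g φ).labelGraph c).Walk x x),
      p.IsCycle ∧ p.support.toFinset = S) : ∃ κ f, Ty w S κ f := by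
  rcases h with h | ⟨c, x, p, hp, rfl⟩
  · refine ⟨none, id, fun _ => ?_, fun _ _ e => by simp at e⟩
    exact (card_le_card_of_injOn Sum.inr (fun b hb => (mem_filter.1 hb).2)
      Sum.inr_injective.injOn).trans (by omega)
  obtain ⟨f, f1, f2⟩ := exists_succ hp
  have f3 := fun y hy => col_of_adj (f2 y hy).2
  rcases c with _ | ⟨i, j⟩ | z
  · refine ⟨none, f, fun _ => ?_, fun _ _ e => by simp at e⟩
    rw [filter_false_of_mem fun b _ hb => ?_]
    · simp
    · have := f3 _ hb
      cases e : f (Sum.inr b) <;> simp [e, col] at this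
  · refine ⟨some (i, j), f, fun e => by simp at e, fun i' j' e => ⟨f1, fun b hb => ?_⟩⟩
    obtain ⟨rfl, rfl⟩ : i = i' ∧ j = j' := by simpa using e
    have := f3 _ hb
    have h2 := (f2 _ hb).1
    generalize f (Sum.inr b) = y at this h2
    cases y with
    | inl a =>
      obtain ⟨rfl, rfl⟩ : a.1 = i ∧ b a.1 = j := by simpa [col] using this
      exact ⟨rfl, h2, a.2, rfl⟩
    | inr b' => simp [col] at this
  · refine ⟨none, f, fun _ => ?_, fun _ _ e => by simp at e⟩
    induction z using Sym2.inductionOn with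
    | hf u v =>
      refine (card_le_card (t := univ.filter (fun b => φ b = u) ∪ univ.filter fun b => φ b = v)
        fun b hb => ?_).trans ((card_union_le _ _).trans (by linarith [hφ u, hφ v]))
      have := f3 _ (mem_filter.1 hb).2
      cases e : f (Sum.inr b) with
      | inl a => simp [e, col] at this
      | inr b' =>
        simp only [e, col, Option.some.injEq, Sum.inr.injEq, Sym2.eq_iff] at this
        simp only [mem_union, mem_filter, mem_univ, true_and]
        tauto

theorem exp_le {x θ : ℝ} (h0 : 0 ≤ x) (h1 : x ≤ θ) (h2 : θ < 1) :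
    Real.exp (-(x / (1 - θ))) ≤ 1 - x := by
  obtain ⟨y, hy⟩ : ∃ y, y = x / (1 - θ) := ⟨_, rfl⟩
  have h3 : y * (1 - θ) = x := by rw [hy, div_mul_cancel₀ _ (by linarith)]
  have h4 : 0 ≤ y := by rw [hy]; exact div_nonneg h0 (by linarith)
  rw [← hy, Real.exp_neg, inv_le_iff_one_le_mul₀ (Real.exp_pos y)]
  nlinarith [mul_le_mul_of_nonneg_left (Real.add_one_le_exp y) (show 0 ≤ 1 - x by linarith),
    mul_le_mul_of_nonneg_left (show 1 - θ ≤ 1 - x by linarith) h4]

theorem core {w : ℕ} (hk : 0 < k) (P : Finpartition (univ : Finset (VV N g k)))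
    (h : ∀ S ∈ P.parts, ∃ κ f, Ty w S κ f) {θ : ℝ} (h0 : 0 < θ) (h1 : θ < 1) :
    (k : ℝ) ^ N * Real.exp (-(P.parts.card / k / (1 - θ))) ≤
      P.parts.card * (2 * w) + P.parts.card / (θ * k) * g := by
  classical
  have : Nonempty (VV N g k → VV N g k) := ⟨id⟩
  choose! κ f hf using h
  have hk' : (0 : ℝ) < k := by exact_mod_cast hk
  obtain ⟨T, hT⟩ : ∃ T : Fin N → Finset (Finset (VV N g k)),
      ∀ i, T i = P.parts.filter fun S => (κ S).map Prod.fst = some i := ⟨_, fun _ => rfl⟩
  have hs : ∑ i, ((T i).card : ℝ) ≤ P.parts.card := by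
    have := card_eq_sum_card_fiberwise (s := P.parts) (t := univ)
      (f := fun S => (κ S).map Prod.fst) fun _ _ => mem_univ _
    rw [Fintype.sum_option] at this
    simp only [hT]
    exact_mod_cast (Nat.le_add_left _ _).trans this.ge
  obtain ⟨J, hJ⟩ : ∃ J : Fin N → Finset (Fin k),
      ∀ i, J i = (T i).image fun S => ((κ S).map Prod.snd).getD ⟨0, hk⟩ := ⟨_, fun _ => rfl⟩
  obtain ⟨H, hH⟩ : ∃ H : Finset (Fin N), H = univ.filter fun i => θ * k < (T i).card := ⟨_, rfl⟩
  have hH1 : (H.card : ℝ) ≤ P.parts.card / (θ * k) := by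
    rw [le_div_iff₀ (by positivity), ← nsmul_eq_mul]
    refine (card_nsmul_le_sum H (fun i => ((T i).card : ℝ)) _ fun i hi => ?_).trans
      ((sum_le_sum_of_subset_of_nonneg (subset_univ H) fun _ _ _ => by positivity).trans hs)
    exact (mem_filter.1 (hH ▸ hi)).2.le
  obtain ⟨U, hU⟩ : ∃ U, U = Fintype.piFinset fun i => if i ∈ H then univ else (J i)ᶜ := ⟨_, rfl⟩
  have lo : (k : ℝ) ^ N * Real.exp (-(P.parts.card / k / (1 - θ))) ≤ U.card := by
    have e : (k : ℝ) ^ N * Real.exp (-((∑ i, ((T i).card : ℝ)) / k / (1 - θ))) =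
        ∏ i, k * Real.exp (-((T i).card / k / (1 - θ))) := by
      rw [prod_mul_distrib, prod_const, card_univ, Fintype.card_fin, ← Real.exp_sum,
        sum_neg_distrib, ← sum_div, ← sum_div]
    have h2 : 0 < 1 - θ := by linarith
    refine le_trans (by gcongr) (e.trans_le ?_)
    rw [hU, Fintype.card_piFinset, Nat.cast_prod]
    refine prod_le_prod (fun _ _ => by positivity) fun i _ => ?_
    split_ifs with hi
    · rw [card_univ, Fintype.card_fin]
      exact mul_le_of_le_one_right hk'.le (Real.exp_le_one_iff.2 (neg_nonpos.2 (by positivity)))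
    · have h3 : ((T i).card : ℝ) / k ≤ θ := by
        rw [div_le_iff₀ hk']
        exact not_lt.1 fun h => hi (hH ▸ mem_filter.2 ⟨mem_univ _, h⟩)
      have h4 : ((J i).card : ℝ) ≤ (T i).card := by
        rw [hJ]
        exact_mod_cast card_image_le
      have h5 := mul_le_mul_of_nonneg_left (exp_le (by positivity) h3 h1) hk'.le
      rw [mul_sub, mul_div_cancel₀ _ hk'.ne'] at h5
      rw [card_compl, Nat.cast_sub (card_le_univ _), Fintype.card_fin]
      linarith
  have hm : ∀ b, P.part (Sum.inr b) ∈ P.parts := fun b => P.part_mem.2 (mem_univ _)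
  have hm' : ∀ b, Sum.inr b ∈ P.part (Sum.inr b) := fun b => P.mem_part (mem_univ _)
  have u0 : (U.filter fun b => κ (P.part (Sum.inr b)) = none).card ≤ P.parts.card * (2 * w) := by
    refine (card_le_card (t := (P.parts.filter fun S => κ S = none).biUnion fun S =>
      univ.filter fun b => Sum.inr b ∈ S) fun b hb => ?_).trans
      ((card_biUnion_le_card_mul _ _ _ fun S hS => ?_).trans
        (Nat.mul_le_mul_right _ (card_filter_le _ _)))
    · exact mem_biUnion.2 ⟨_, mem_filter.2 ⟨hm b, (mem_filter.1 hb).2⟩,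
        mem_filter.2 ⟨mem_univ _, hm' b⟩⟩
    · exact (hf S (mem_filter.1 hS).1).1 (mem_filter.1 hS).2
  have u1 : (U.filter fun b => ¬ κ (P.part (Sum.inr b)) = none).card ≤ H.card * g := by
    have key : ∀ b ∈ (U.filter fun b => ¬ κ (P.part (Sum.inr b)) = none), ∃ i ∈ H, ∃ j,
        κ (P.part (Sum.inr b)) = some (i, j) := by
      intro b hb
      obtain ⟨⟨i, j⟩, e⟩ := Option.ne_none_iff_exists'.1 (mem_filter.1 hb).2
      refine ⟨i, by_contra fun hi => ?_, j, e⟩
      have h2 := Fintype.mem_piFinset.1 (hU ▸ (mem_filter.1 hb).1) i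
      rw [if_neg hi, mem_compl, hJ, hT, (((hf _ (hm b)).2 i j e).2 b (hm' b)).1] at h2
      exact h2 (mem_image.2 ⟨_, mem_filter.2 ⟨hm b, by rw [e]; rfl⟩, by rw [e]; rfl⟩)
    refine (card_le_card_of_injOn (t := (H ×ˢ (univ : Finset (Fin g))).image Sum.inl)
      (fun b => f (P.part (Sum.inr b)) (Sum.inr b)) (fun b hb => ?_) fun b hb b' hb' e => ?_).trans
      (card_image_le.trans_eq (by simp))
    · obtain ⟨i, hi, j, e⟩ := key b hb
      obtain ⟨a, ha⟩ := (((hf _ (hm b)).2 i j e).2 b (hm' b)).2.2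
      exact mem_coe.2 (mem_image.2 ⟨(i, a), mem_product.2 ⟨hi, mem_univ _⟩, ha.symm⟩)
    · obtain ⟨i, -, j, e1⟩ := key b hb
      obtain ⟨i', -, j', e2⟩ := key b' hb'
      have h2 := (((hf _ (hm b)).2 i j e1).2 b (hm' b)).2.1
      have h3 := (((hf _ (hm b')).2 i' j' e2).2 b' (hm' b')).2.1
      beta_reduce at e
      have h4 := P.eq_of_mem_parts (hm b) (hm b') h2 (e ▸ h3)
      rw [← h4] at e
      exact Sum.inr_injective (((hf _ (hm b)).2 i j e1).1 (hm' b) (h4 ▸ hm' b') e)
  have u2 : (U.card : ℝ) ≤ P.parts.card * (2 * w) + H.card * g := by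
    rw [← card_filter_add_card_filter_not (s := U) fun b => κ (P.part (Sum.inr b)) = none]
    exact_mod_cast add_le_add u0 u1
  exact lo.trans (u2.trans (by gcongr))

/-- The colouring with parameters `k` and `s`. -/
theorem exists_col (k s : ℕ) (hk : 2 ≤ k) (hs : 1 ≤ s) :
    ∃ (V K : Type) (_ : Fintype V) (_ : DecidableEq V) (C : TopEdgeLabeling V K),
      ∑ x : V, {c : K | ∃ y : V, (C.labelGraph c).Adj x y}.ncard ≤ (k + s + 2) * Fintype.card V ∧
      ∀ P : Finpartition (univ : Finset V), (∀ S ∈ P.parts, S.card ≤ 2 ∨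
        ∃ (c : K) (x : V) (p : (C.labelGraph c).Walk x x), p.IsCycle ∧ p.support.toFinset = S) →
        ∀ θ : ℝ, 0 < θ → θ < 1 →
          Real.exp (-(P.parts.card / k / (1 - θ))) ≤ 6 * P.parts.card / (θ * k * s) := by
  obtain ⟨N, hN⟩ : ∃ N, N = k * s * s := ⟨_, rfl⟩
  obtain ⟨B, hB⟩ : ∃ B, B = k ^ N := ⟨_, rfl⟩
  have hks : 0 < k * s := by positivity
  have h1 : k * s ≤ B := by
    have := Nat.lt_pow_self (n := N) (show 1 < k by omega)
    nlinarith
  have h2 : s ≤ B := by nlinarith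
  have hg := Nat.lt_mul_div_succ B hs
  have hw := Nat.lt_mul_div_succ B hks
  have hg' : s * (B / s + 1) ≤ 2 * B := by linarith [Nat.mul_div_le B s]
  have hw' : k * s * (B / (k * s) + 1) ≤ 2 * B := by linarith [Nat.mul_div_le B (k * s)]
  have hw1 : 1 ≤ B / (k * s) + 1 := Nat.le_add_left _ _
  generalize B / s + 1 = g at hg hg'
  generalize B / (k * s) + 1 = w at hw hw' hw1
  refine ⟨VV N g k, KK N k, inferInstance, inferInstance,
    lab g fun b => (finFunctionFinEquiv b).1 / w, ?_, fun P hP θ h0 h3 => ?_⟩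
  · refine (mean_le (M := k * s) _ fun b => Nat.div_lt_of_lt_mul ?_).trans ?_
    · have := (finFunctionFinEquiv b).2
      linarith
    · have e : Fintype.card (VV N g k) = N * g + B := by simp [hB]
      have a1 : B * N ≤ s * g * N := Nat.mul_le_mul_right _ hg.le
      have a2 : B * (k * s) ≤ s * g * (k * s) := Nat.mul_le_mul_right _ hg.le
      have a3 : s * g * (k * s) = N * g := by rw [hN]; ring
      rw [e, ← hB]
      nlinarith
  · have h4 := core (w := w) (by omega) P (fun S hS => exists_ty hw1 _ (fun m => ?_) S (hP S hS))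
      h0 h3
    · have b0 : (0 : ℝ) < B := by exact_mod_cast hks.trans_le h1
      have k0 : (0 : ℝ) < k := by positivity
      have s0 : (0 : ℝ) < s := by positivity
      have b1 : (g : ℝ) ≤ 2 * B / s := by
        rw [le_div_iff₀' s0]
        exact_mod_cast hg'
      have b2 : (w : ℝ) ≤ 2 * B / (θ * k * s) := by
        have : (k : ℝ) * s * w ≤ 2 * B := by exact_mod_cast hw'
        rw [le_div_iff₀' (by positivity)]
        nlinarith [mul_le_mul_of_nonneg_right h3.le (show (0 : ℝ) ≤ k * s * w by positivity)]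
      rw [← Nat.cast_pow, ← hB] at h4
      refine le_of_mul_le_mul_left (h4.trans (le_of_le_of_eq (b := P.parts.card *
        (2 * (2 * B / (θ * k * s))) + P.parts.card / (θ * k) * (2 * B / s)) (by gcongr) ?_)) b0
      field_simp
      ring
    · refine (card_le_card_of_injOn (t := range w) (fun b => (finFunctionFinEquiv b).1 % w)
        (fun b _ => mem_coe.2 (mem_range.2 (Nat.mod_lt _ hw1))) fun b hb b' hb' e => ?_).trans_eq
        (card_range w)
      refine finFunctionFinEquiv.injective (Fin.ext ?_)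
      rw [← Nat.div_add_mod (finFunctionFinEquiv b).1 w,
        ← Nat.div_add_mod (finFunctionFinEquiv b').1 w, (mem_filter.1 hb).2, (mem_filter.1 hb').2]
      exact congrArg _ e

theorem asym {θ r k s t L : ℝ} (h0 : 0 < θ) (h1 : θ ≤ 1 / 4) (hr : r = Real.exp L)
    (hL : 24 / θ ^ 4 < L) (hk : (1 - 2 * θ) * r ≤ k) (hs : θ * r ≤ s)
    (h : Real.exp (-(t / k / (1 - θ))) ≤ 6 * t / (θ * k * s)) : (1 - 4 * θ) * (r * L) ≤ t := by
  by_contra ht
  push Not at ht
  have L0 : 0 < L := lt_trans (by positivity) hL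
  have r0 : 0 < r := hr ▸ Real.exp_pos L
  have k1 : r / 2 ≤ k := by linarith [mul_le_mul_of_nonneg_right h1 r0.le]
  have k0 : 0 < k := by linarith
  have s0 : 0 < s := lt_of_lt_of_le (by positivity) hs
  have q0 : 0 < 1 - θ := by linarith
  have rL : 0 < r * L := by positivity
  have a1 : t / k / (1 - θ) ≤ (1 - θ) * L := by
    rw [div_div, div_le_iff₀ (by positivity)]
    have b1 := mul_le_mul_of_nonneg_left hk (show 0 ≤ (1 - θ) ^ 2 * L by positivity)
    have b2 : 1 - 4 * θ ≤ (1 - θ) ^ 2 * (1 - 2 * θ) := by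
      linarith [mul_nonneg (sq_nonneg θ) (show 0 ≤ 5 - 2 * θ by linarith)]
    linarith [mul_le_mul_of_nonneg_right b2 rL.le]
  have a2 : 6 * t / (θ * k * s) ≤ 12 * L / (θ ^ 2 * r) := by
    have b1 : t ≤ r * L := by linarith [mul_pos h0 rL]
    refine le_of_le_of_eq (b := 6 * (r * L) / (θ * (r / 2) * (θ * r))) (by gcongr) ?_
    field_simp
    norm_num
  have a3 := ((Real.exp_le_exp.2 (neg_le_neg a1)).trans h).trans a2
  rw [show -((1 - θ) * L) = θ * L - L by ring, Real.exp_sub, ← hr,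
    div_le_div_iff₀ r0 (by positivity)] at a3
  have a4 := Real.quadratic_le_exp_of_nonneg (mul_pos h0 L0).le
  have a5 : (θ * L) ^ 2 / 2 ≤ Real.exp (θ * L) := by linarith [mul_pos h0 L0]
  rw [div_lt_iff₀ (by positivity)] at hL
  linarith [mul_le_mul_of_nonneg_right a5 (show 0 ≤ θ ^ 2 * r by positivity),
    mul_lt_mul_of_pos_right hL rL]

end Pool.Agent.Lib.MP_b89653_co.LB
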