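import Pool.Agent.Lib.MP_b89653_co.Bip

set_option autoImplicit false

namespace Pool.Agent.Lib.MP_b89653_co

open Finset

variable {V : Type*}

/-- Grouped version of the covering lemma. -/
theorem gcl_group (k : ℕ) (hk : 1 ≤ k) : ∃ ρ g : ℕ,
    ∀ (V : Type) [DecidableEq V] (col : V → V → ℕ) (D : V → ℕ) (n : ℕ), (∀ u v, col u v = col v u) → 0 < n →
      ∀ (j : ℕ) (A B : Finset V), Disjoint B A → n + 2 * B.card ≤ 2 * A.card →
      (∀ a ∈ A, (B.image (col a)).card ≤ k) →
      (∀ b ∈ B, (A.image fun a => col a b).card ≤ D b) →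
      2 * ρ * ∑ b ∈ B, D b ≤ (j + 1) * n →
      ∃ Y ⊆ A, Cover (Rel fun u v => some (col u v)) (B ∪ Y) ((j + 1) * g) := by
  classical
  obtain ⟨ρ, g, _, hG⟩ := gcl k hk
  refine ⟨ρ, g + 1, ?_⟩
  intro V _ col D n hsym hn
  have hbase : ∀ (A B : Finset V), Disjoint B A → n ≤ 2 * A.card →
      (∀ a ∈ A, (B.image (col a)).card ≤ k) →
      (∀ b ∈ B, (A.image fun a => col a b).card ≤ D b) →
      2 * ρ * ∑ b ∈ B, D b ≤ n →
      ∃ Y ⊆ A, Y.card ≤ B.card ∧ Cover (Rel fun u v => some (col u v)) (B ∪ Y) g := by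
    intro A B hd hA hk' hD hs
    apply hG V col A B hsym hd (Finset.card_pos.1 (by omega)) hk'
    have := Nat.mul_le_mul_left ρ (Finset.sum_le_sum hD)
    nlinarith
  intro j
  induction j with
  | zero =>
    intro A B hd hA hk' hD hs
    obtain ⟨Y, hY, _, hc⟩ := hbase A B hd (by omega) hk' hD (by simpa using hs)
    exact ⟨Y, hY, hc.mono (by omega)⟩
  | succ j ih =>
    intro A B hd hA hk' hD hs
    by_cases hsm : 2 * ρ * ∑ b ∈ B, D b ≤ n
    · obtain ⟨Y, hY, _, hc⟩ := hbase A B hd (by omega) hk' hD hsm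
      exact ⟨Y, hY, hc.mono (by nlinarith [Nat.zero_le (j * g)])⟩
    obtain ⟨B₁, hB₁, hmax⟩ := Finset.exists_max_image
      (B.powerset.filter fun S => 2 * ρ * ∑ b ∈ S, D b ≤ n) Finset.card ⟨∅, by simp⟩
    obtain ⟨hB₁B, hB₁s⟩ := Finset.mem_filter.1 hB₁
    rw [Finset.mem_powerset] at hB₁B
    obtain ⟨b, hbB, hb₁⟩ : ∃ b ∈ B, b ∉ B₁ := by
      by_contra hcon
      push Not at hcon
      have : B₁ = B := Finset.Subset.antisymm hB₁B hcon
      rw [this] at hB₁s
      exact hsm hB₁s
    have hins : insert b B₁ ⊆ B := Finset.insert_subset hbB hB₁B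
    have hbig : n < 2 * ρ * ∑ b ∈ insert b B₁, D b := by
      by_contra hcon
      push Not at hcon
      have := hmax (insert b B₁) (Finset.mem_filter.2 ⟨Finset.mem_powerset.2 hins, hcon⟩)
      rw [Finset.card_insert_of_notMem hb₁] at this
      omega
    obtain ⟨Y₁, hY₁, hY₁c, hc₁⟩ := hbase A B₁ (hd.mono_left hB₁B) (by omega)
      (fun a ha => (Finset.card_le_card (Finset.image_subset_image hB₁B)).trans (hk' a ha))
      (fun b hb => hD b (hB₁B hb)) hB₁s
    obtain ⟨Y₂, hY₂, hc₂⟩ := ih (A \ Y₁) (B \ insert b B₁)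
      (hd.mono Finset.sdiff_subset Finset.sdiff_subset) (by
        rw [Finset.card_sdiff_of_subset hins, Finset.card_sdiff_of_subset hY₁,
          Finset.card_insert_of_notMem hb₁]
        have := Finset.card_le_card hins
        rw [Finset.card_insert_of_notMem hb₁] at this
        omega)
      (fun a ha => (Finset.card_le_card (Finset.image_subset_image Finset.sdiff_subset)).trans
        (hk' a (Finset.mem_sdiff.1 ha).1))
      (fun b' hb' => (Finset.card_le_card (Finset.image_subset_image Finset.sdiff_subset)).trans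
        (hD b' (Finset.mem_sdiff.1 hb').1))
      (by
        have := Finset.sum_sdiff (f := D) hins
        rw [← this] at hs
        nlinarith)
    have hs₁ : Cover (Rel fun u v => some (col u v)) {b} 1 := Cover.single (c := 0) (Or.inl rfl)
    have hdA := fun a (h : a ∈ B) => Finset.disjoint_left.1 hd h
    refine ⟨Y₁ ∪ Y₂, Finset.union_subset hY₁ (hY₂.trans Finset.sdiff_subset), ?_⟩
    refine ((hc₂.union (hc₁.union hs₁ ?_) ?_).congr ?_).mono (le_of_eq (by ring))
    · rw [Finset.disjoint_singleton_right, Finset.mem_union]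
      rintro (h | h)
      · exact hb₁ h
      · exact hdA b hbB (hY₁ h)
    · rw [Finset.disjoint_left]
      intro a ha ha'
      have e1 := fun h : a ∈ Y₁ => hY₁ h
      have e2 := fun h : a ∈ Y₂ => hY₂ h
      have e3 := fun h : a ∈ B₁ => hB₁B h
      have e4 := hdA a
      have e5 : a = b → a ∈ B := fun h => h ▸ hbB
      simp only [Finset.mem_union, Finset.mem_sdiff, Finset.mem_insert,
        Finset.mem_singleton] at ha ha' e2
      clear * - ha ha' e1 e2 e3 e4 e5
      tauto
    · ext a
      have e3 := fun h : a ∈ B₁ => hB₁B h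
      have e5 : a = b → a ∈ B := fun h => h ▸ hbB
      simp only [Finset.mem_union, Finset.mem_sdiff, Finset.mem_insert, Finset.mem_singleton]
      clear * - e3 e5
      tauto

theorem mean_cover (r : ℕ) : ∃ m : ℕ, ∀ n : ℕ, ∀ c : Fin n → Fin n → ℕ,
    (∀ u v, c u v = c v u) →
    (∑ v : Fin n, ((Finset.univ.erase v).image (c v)).card ≤ r * n) →
    Cover (Rel fun u v => some (c u v)) Finset.univ m := by
  classical
  obtain ⟨ρ, g, hG⟩ := gcl_group (4 * r + 1) (by omega)
  obtain ⟨Q, f, _, hRT⟩ := robust_partition (4 * r + 1) (by omega)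
  refine ⟨(2 * ρ * r + 1) * g + f, ?_⟩
  intro n c hsym hmean
  rcases Nat.eq_zero_or_pos n with rfl | hn
  · exact (Cover.empty _ _).congr (by simp)
  set D : Fin n → ℕ := fun v => ((Finset.univ.erase v).image (c v)).card with hD
  set B : Finset (Fin n) := Finset.univ.filter fun v => 4 * r < D v with hB
  set A : Finset (Fin n) := Finset.univ.filter fun v => ¬ 4 * r < D v with hA
  have hAB : B.card + A.card = n := by
    rw [hB, hA, Finset.card_filter_add_card_filter_not]; simp
  have hsumB : ∑ b ∈ B, D b ≤ r * n :=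
    (Finset.sum_le_sum_of_subset (Finset.subset_univ _)).trans hmean
  have hBc : 4 * B.card ≤ n := by
    have h1 : B.card * (4 * r + 1) ≤ ∑ b ∈ B, D b := by
      simpa using Finset.card_nsmul_le_sum B D (4 * r + 1)
        (fun b hb => (Finset.mem_filter.1 hb).2)
    rcases Nat.eq_zero_or_pos r with rfl | hr
    · omega
    · have : r * (4 * B.card) ≤ r * n := by nlinarith
      exact Nat.le_of_mul_le_mul_left this hr
  have hd : Disjoint B A := Finset.disjoint_filter_filter_not _ _ _
  have hDA : ∀ a ∈ A, D a ≤ 4 * r := fun a ha => by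
    have := (Finset.mem_filter.1 ha).2
    omega
  obtain ⟨Y, hY, hc₁⟩ := hG (Fin n) c D n hsym hn (2 * ρ * r) A B hd (by omega)
    (fun a ha => by
      refine le_trans (Finset.card_le_card (Finset.image_subset_image ?_))
        ((hDA a ha).trans (Nat.le_succ _))
      intro b hb
      refine Finset.mem_erase.2 ⟨?_, Finset.mem_univ _⟩
      rintro rfl
      exact Finset.disjoint_left.1 hd hb ha)
    (fun b hb => by
      apply Finset.card_le_card
      intro x hx
      obtain ⟨a, ha, rfl⟩ := Finset.mem_image.1 hx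
      refine Finset.mem_image.2 ⟨a, Finset.mem_erase.2 ⟨?_, Finset.mem_univ _⟩, hsym _ _⟩
      rintro rfl
      exact Finset.disjoint_left.1 hd hb ha)
    (by have := Nat.mul_le_mul_left (2 * ρ) hsumB; nlinarith)
  have hc₂ := hRT (Fin n) (fun u v => some (c u v)) (A \ Y) (fun u v => by rw [hsym])
    ⟨fun u => insert (c u u) ((Finset.univ.erase u).image (c u)), fun u hu => by
      refine ⟨(Finset.card_insert_le _ _).trans ?_, fun v _ d h => ?_⟩
      · exact Nat.succ_le_succ (hDA u (Finset.mem_sdiff.1 hu).1)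
      · have h := Option.some.inj h
        rw [← h]
        by_cases e : v = u
        · rw [e]; exact Finset.mem_insert_self _ _
        · exact Finset.mem_insert_of_mem (Finset.mem_image_of_mem _
            (Finset.mem_erase.2 ⟨e, Finset.mem_univ _⟩))⟩ (fun v _ => by simp)
  refine (hc₁.union hc₂ ?_).congr ?_
  · rw [Finset.disjoint_union_left]
    exact ⟨hd.mono_right Finset.sdiff_subset, Finset.disjoint_sdiff⟩
  · rw [Finset.union_assoc, Finset.union_sdiff_of_subset hY, hB, hA,
      Finset.filter_union_filter_not_eq]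

lemma Cyc.index {R : V → V → Prop} {l : List V} (h : Cyc R l) (i : ℕ) (a b : V)
    (ha : l[i]? = some a) (hb : l[(i + 1) % l.length]? = some b) : R a b := by
  cases l with
  | nil => simp at ha
  | cons v l =>
    have h' : List.IsChain R ((v :: l) ++ [v]) := h
    obtain ⟨hi, rfl⟩ := List.getElem?_eq_some_iff.1 ha
    obtain ⟨hj, rfl⟩ := List.getElem?_eq_some_iff.1 hb
    have := List.isChain_iff_getElem.1 h' i (by simp at hi ⊢; omega)
    rw [List.getElem_append_left hi] at this
    by_cases hlt : i + 1 < (v :: l).length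
    · rw [List.getElem_append_left hlt] at this
      simpa only [Nat.mod_eq_of_lt hlt] using this
    · have e : i + 1 = (v :: l).length := by omega
      rw [List.getElem_append_right (by omega)] at this
      simpa [e] using this

theorem mean_partition (r : ℕ) : ∃ m : ℕ, ∀ n : ℕ, ∀ c : Fin n → Fin n → ℕ,
      (∀ u v, c u v = c v u) →
      (∑ v : Fin n, ((Finset.univ.erase v).image (c v)).card ≤ r * n) →
      ∃ k : ℕ, k ≤ m ∧ ∃ C : Fin k → List (Fin n),
        (∀ j : Fin k, (C j).Nodup ∧
          ∃ col : ℕ, ∀ i : ℕ, ∀ a b : Fin n,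
            (C j)[i]? = some a →
            (C j)[(i + 1) % (C j).length]? = some b →
            a ≠ b → c a b = col) ∧
        (∀ v : Fin n, ∃! j : Fin k, v ∈ C j) := by
  obtain ⟨m, hm⟩ := mean_cover r
  refine ⟨m, fun n c hsym hmean => ?_⟩
  obtain ⟨L, h1, h2, h3, h4⟩ := hm n c hsym hmean
  rw [List.nodup_flatten] at h2
  refine ⟨L.length, h1, fun j => L[j], fun j => ⟨h2.1 _ (List.getElem_mem _), ?_⟩, fun v => ?_⟩
  · obtain ⟨col, hcol⟩ := h4 L[j] (List.getElem_mem _)
    refine ⟨col, fun i a b ha hb hab => ?_⟩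
    rcases hcol.index i a b ha hb with e | e
    · exact absurd e hab
    · exact Option.some.inj e
  · obtain ⟨l, hl, hv⟩ := List.mem_flatten.1 ((h3 v).2 (Finset.mem_univ v))
    obtain ⟨i, hi, rfl⟩ := List.getElem_of_mem hl
    refine ⟨⟨i, hi⟩, hv, fun j hj => ?_⟩
    by_contra hne
    have hp := List.pairwise_iff_getElem.1 h2.2
    have hne' : (j : ℕ) ≠ i := fun e => hne (Fin.ext e)
    rcases Nat.lt_or_gt_of_ne hne' with hlt | hlt
    · exact hp j i j.2 hi hlt hj hv
    · exact hp i j hi j.2 hlt hv hj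

end Pool.Agent.Lib.MP_b89653_co
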