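import Pool.Agent.Lib.MP_b89653_co.Cover

set_option autoImplicit false

namespace Pool.Agent.Lib.MP_b89653_co

open Finset

variable {V : Type*}

/-- Cutting a path at the last neighbour of its first vertex. -/
lemma cut_path (H : V → V → Prop) (hsymm : ∀ u v, H u v → H v u) (v : V) (hv : H v v) :
    ∀ rest : List V, List.IsChain H (v :: rest) →
      ∃ r t : List V, rest = r ++ t ∧ Cyc H (v :: r) ∧ ∀ u ∈ t, ¬ H v u := by
  intro rest
  induction rest using List.reverseRecOn with
  | nil => intro _; exact ⟨[], [], by simp, by simpa [Cyc] using hv, by simp⟩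
  | append_singleton l a ih =>
    intro hc
    by_cases ha : H v a
    · refine ⟨l ++ [a], [], by simp, ?_, by simp⟩
      have : v :: (l ++ [a] ++ [v]) = (v :: l) ++ a :: [v] := by simp
      show List.IsChain H (v :: (l ++ [a] ++ [v]))
      rw [this, List.isChain_split]
      exact ⟨by simpa using hc, by simpa using hsymm _ _ ha⟩
    · have hc' : List.IsChain H (v :: l) := by
        have : v :: (l ++ [a]) = (v :: l) ++ [a] := by simp
        rw [this] at hc
        exact hc.left_of_append
      obtain ⟨r, t, h1, h2, h3⟩ := ih hc'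
      refine ⟨r, t ++ [a], by simp [h1], h2, ?_⟩
      intro u hu
      rcases List.mem_append.1 hu with hu | hu
      · exact h3 u hu
      · rw [List.mem_singleton.1 hu]; exact ha

lemma exists_good_cycle [DecidableEq V] (H : V → V → Prop) (hsymm : ∀ u v, H u v → H v u)
    (S : Finset V) (hS : S.Nonempty) (hrefl : ∀ v ∈ S, H v v) :
    ∃ (v : V) (r : List V), (v :: r).Nodup ∧ (∀ u ∈ v :: r, u ∈ S) ∧ Cyc H (v :: r) ∧
      ∀ u ∈ S, H v u → u ∈ v :: r := by
  classical
  let P : ℕ → Prop := fun k => ∃ l : List V, l.length = k ∧ l.Nodup ∧ (∀ u ∈ l, u ∈ S) ∧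
    List.IsChain H l
  have hbound : ∀ k, P k → k ≤ S.card := by
    rintro k ⟨l, rfl, h1, h2, _⟩
    rw [← List.toFinset_card_of_nodup h1]
    apply Finset.card_le_card
    intro u hu
    exact h2 u (List.mem_toFinset.1 hu)
  obtain ⟨s, hs⟩ := hS
  have hP1 : P 1 := ⟨[s], rfl, by simp, by simpa using hs, by simp⟩
  have hmax := Nat.findGreatest_spec (P := P) (hbound 1 hP1) hP1
  have hge : 1 ≤ Nat.findGreatest P S.card := Nat.le_findGreatest (hbound 1 hP1) hP1
  obtain ⟨l, hl, h1, h2, h3⟩ := hmax
  cases l with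
  | nil => simp at hl; omega
  | cons v rest =>
    have hall : ∀ u ∈ S, H v u → u ∈ v :: rest := by
      intro u hu huv
      by_contra hne
      have hP : P (Nat.findGreatest P S.card + 1) := by
        refine ⟨u :: v :: rest, by rw [← hl]; simp, List.nodup_cons.2 ⟨hne, h1⟩, ?_, ?_⟩
        · intro x hx
          rcases List.mem_cons.1 hx with rfl | hx
          · exact hu
          · exact h2 x hx
        · exact List.isChain_cons_cons.2 ⟨hsymm _ _ huv, h3⟩
      exact Nat.findGreatest_is_greatest (Nat.lt_succ_self _) (hbound _ hP) hP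
    obtain ⟨r, t, g1, g2, g3⟩ := cut_path H hsymm v (hrefl v (h2 v (by simp))) rest h3
    subst g1
    refine ⟨v, r, ?_, ?_, g2, ?_⟩
    · have : (v :: r).Sublist (v :: (r ++ t)) := by simp
      exact h1.sublist this
    · intro u hu
      apply h2
      simp only [List.mem_cons, List.mem_append] at hu ⊢
      tauto
    · intro u hu huv
      have := hall u hu huv
      simp only [List.mem_cons, List.mem_append] at this ⊢
      rcases this with h | h | h
      · exact Or.inl h
      · exact Or.inr h
      · exact absurd huv (g3 u h)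

/-- Posa: a graph with independence number at most `t` is partitioned into `t` cycles. -/
theorem posa [DecidableEq V] (H : V → V → Prop) (hsymm : ∀ u v, H u v → H v u) (c : ℕ) :
    ∀ (t : ℕ) (S : Finset V), (∀ v ∈ S, H v v) →
      (∀ I ⊆ S, (∀ u ∈ I, ∀ v ∈ I, u ≠ v → ¬ H u v) → I.card ≤ t) →
      Cover (fun c' u v => c' = c ∧ H u v) S t := by
  intro t
  induction t with
  | zero =>
    intro S _ hI
    rcases S.eq_empty_or_nonempty with rfl | ⟨s, hs⟩
    · exact Cover.empty _ _
    · have := hI {s} (by simpa using hs) (by simp)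
      simp at this
  | succ t ih =>
    intro S hrefl hI
    rcases S.eq_empty_or_nonempty with rfl | hS
    · exact Cover.empty _ _
    obtain ⟨v, r, h1, h2, h3, h4⟩ := exists_good_cycle H hsymm S hS hrefl
    have hc : Cover (fun c' u v => c' = c ∧ H u v) (v :: r).toFinset 1 :=
      Cover.of_cyc (c := c) h1 (h3.imp fun _ _ _ _ h => ⟨rfl, h⟩)
    have hrest : Cover (fun c' u v => c' = c ∧ H u v) (S \ (v :: r).toFinset) t := by
      apply ih
      · intro u hu; exact hrefl u (Finset.mem_sdiff.1 hu).1
      · intro I hIS hind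
        have hvI : v ∉ I := by
          intro hv
          have := (Finset.mem_sdiff.1 (hIS hv)).2
          simp at this
        have hnadj : ∀ u ∈ I, ¬ H v u := by
          intro u hu huv
          have := Finset.mem_sdiff.1 (hIS hu)
          exact this.2 (List.mem_toFinset.2 (h4 u this.1 huv))
        have := hI (insert v I) (by
          intro u hu
          rcases Finset.mem_insert.1 hu with rfl | hu
          · exact h2 u (by simp)
          · exact (Finset.mem_sdiff.1 (hIS hu)).1) (by
          intro a ha b hb hab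
          rcases Finset.mem_insert.1 ha with ha | ha <;>
            rcases Finset.mem_insert.1 hb with hb | hb
          · exact absurd (ha.trans hb.symm) hab
          · rw [ha]; exact hnadj b hb
          · rw [hb]; exact fun h => hnadj a ha (hsymm _ _ h)
          · exact hind a ha b hb hab)
        rw [Finset.card_insert_of_notMem hvI] at this
        omega
    have := hc.union hrest Finset.disjoint_sdiff
    rw [add_comm] at this
    refine this.congr ?_
    apply Finset.union_sdiff_of_subset
    intro u hu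
    exact h2 u (List.mem_toFinset.1 hu)

/-- Bonferroni inequality. -/
lemma bonferroni [DecidableEq V] {ι : Type*} [DecidableEq ι] (N : ι → Finset V) (y : ℕ)
    (I : Finset ι) (h : ∀ i ∈ I, ∀ j ∈ I, i ≠ j → (N i ∩ N j).card ≤ y) :
    ∑ i ∈ I, (N i).card ≤ (I.biUnion N).card + I.card * I.card * y := by
  induction I using Finset.induction_on with
  | empty => simp
  | insert i I hi ih =>
    have ih' := ih (fun a ha b hb => h a (by simp [ha]) b (by simp [hb]))
    rw [Finset.sum_insert hi, Finset.biUnion_insert, Finset.card_insert_of_notMem hi]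
    have e1 := Finset.card_union_add_card_inter (N i) (I.biUnion N)
    have e2 : (N i ∩ I.biUnion N).card ≤ I.card * y := by
      rw [Finset.inter_biUnion]
      refine Finset.card_biUnion_le.trans ?_
      have : ∀ j ∈ I, (N i ∩ N j).card ≤ y := by
        intro j hj
        apply h i (by simp) j (by simp [hj])
        rintro rfl
        exact hi hj
      simpa using Finset.sum_le_card_nsmul I _ y this
    nlinarith

/-- Vertices with dense neighbourhoods in `W` are covered by few cycles of large codegree. -/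
lemma dense_cover [DecidableEq V] (S W : Finset V) (N : V → Finset V) (D y c : ℕ)
    (hW : W.Nonempty) (hNW : ∀ s ∈ S, N s ⊆ W) (hD : ∀ s ∈ S, W.card ≤ D * (N s).card)
    (hy : 8 * D * D * y ≤ W.card) :
    Cover (fun c' u v => c' = c ∧ y ≤ (N u ∩ N v).card) S (2 * D) := by
  have hWpos : 0 < W.card := hW.card_pos
  apply posa (fun u v => y ≤ (N u ∩ N v).card) (fun u v h => by rwa [Finset.inter_comm])
  · intro v hv
    rw [Finset.inter_self]
    have h1 := hD v hv
    have hDpos : 0 < D := by
      rcases Nat.eq_zero_or_pos D with rfl | h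
      · omega
      · exact h
    by_contra hlt
    push Not at hlt
    have : D * (N v).card < D * y := Nat.mul_lt_mul_of_pos_left hlt hDpos
    nlinarith
  · intro I hIS hind
    by_contra hlt
    push Not at hlt
    obtain ⟨J, hJI, hJ⟩ := Finset.exists_subset_card_eq hlt.le
    have h1 := bonferroni N y J (fun i hi j hj hij => by
      have := hind i (hJI hi) j (hJI hj) hij
      omega)
    have h2 : (J.biUnion N).card ≤ W.card := by
      apply Finset.card_le_card
      intro x hx
      obtain ⟨i, hi, hx⟩ := Finset.mem_biUnion.1 hx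
      exact hNW i (hIS (hJI hi)) hx
    have h3 : J.card * W.card ≤ D * ∑ i ∈ J, (N i).card := by
      rw [Finset.mul_sum]
      simpa using Finset.card_nsmul_le_sum J _ W.card (fun i hi => hD i (hIS (hJI hi)))
    rw [hJ] at h1 h3
    have hDpos : 0 < D := by
      rcases Nat.eq_zero_or_pos D with rfl | h
      · obtain ⟨i, hi⟩ : I.Nonempty := Finset.card_pos.1 (by omega)
        have := hD i (hIS hi)
        omega
      · exact h
    have h4 : 2 * W.card ≤ ∑ i ∈ J, (N i).card := by
      have : D * (2 * W.card) ≤ D * ∑ i ∈ J, (N i).card := by nlinarith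
      exact Nat.le_of_mul_le_mul_left this hDpos
    nlinarith

/-- Hall's theorem in a scale-by-scale form. -/
lemma hall_scale [DecidableEq V] (T : Finset V) (N : V → Finset V)
    (h : ∀ y, (T.filter fun u => (N u).card ≤ y).card ≤ y) :
    ∃ w : V → V, Set.InjOn w T ∧ ∀ u ∈ T, w u ∈ N u := by
  have hall := (Finset.all_card_le_biUnion_card_iff_exists_injective
    (fun u : T => N u.1)).1 (by
      intro s
      rcases s.eq_empty_or_nonempty with rfl | hs
      · simp
      obtain ⟨u, hu, hmax⟩ := Finset.exists_max_image s (fun u : T => (N u.1).card) hs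
      calc s.card = (s.map (Function.Embedding.subtype _)).card := by simp
        _ ≤ (T.filter fun x => (N x).card ≤ (N u.1).card).card := by
          apply Finset.card_le_card
          intro x hx
          obtain ⟨x', hx', rfl⟩ := Finset.mem_map.1 hx
          exact Finset.mem_filter.2 ⟨x'.2, hmax x' hx'⟩
        _ ≤ (N u.1).card := h _
        _ ≤ _ := Finset.card_le_card (Finset.subset_biUnion_of_mem (fun u : T => N u.1) hu))
  obtain ⟨f, hf, hfN⟩ := hall
  refine ⟨fun u => if hu : u ∈ T then f ⟨u, hu⟩ else u, ?_, ?_⟩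
  · intro u hu v hv huv
    have hu' : u ∈ T := hu
    have hv' : v ∈ T := hv
    simp only [hu', hv', dif_pos] at huv
    exact congrArg Subtype.val (hf huv)
  · intro u hu
    simp only [hu, dif_pos]
    exact hfN ⟨u, hu⟩

lemma hall_uniform [DecidableEq V] (T : Finset V) (N : V → Finset V)
    (h : ∀ u ∈ T, T.card ≤ (N u).card) :
    ∃ w : V → V, Set.InjOn w T ∧ ∀ u ∈ T, w u ∈ N u := by
  apply hall_scale
  intro y
  rcases (T.filter fun u => (N u).card ≤ y).eq_empty_or_nonempty with he | ⟨u, hu⟩
  · simp [he]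
  · have := Finset.mem_filter.1 hu
    exact (Finset.card_filter_le _ _).trans ((h u this.1).trans this.2)

open Classical in
/-- Lifting a cover through a reservoir `Z`, uniform version. -/
lemma lift_uniform [DecidableEq V] {R' : ℕ → V → V → Prop} (R : ℕ → V → V → Prop)
    {S : Finset V} {m : ℕ} (h : Cover R' S m) (Z : Finset V) (hZ : Disjoint S Z)
    (hR : ∀ c, ∀ u ∈ S, ∀ v ∈ S, R' c u v →
      S.card ≤ (Z.filter fun a => R c u a ∧ R c a v).card) :
    ∃ Y ⊆ Z, Y.card = S.card ∧ Cover R (S ∪ Y) m ∧
      ((∀ c, ∀ u ∈ S, ∀ v ∈ S, R' c u v → R c u v) → ∀ Y' ⊆ Y, Cover R (S ∪ Y') m) := by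
  obtain ⟨nxt, κ, h1, h2, h3, h4⟩ := h.expand
  obtain ⟨w, hw, hwN⟩ := hall_uniform S
    (fun u => Z.filter fun a => R (κ u) u a ∧ R (κ u) a (nxt u))
    (fun u hu => hR _ u hu _ (h1 u hu) (h3 u hu))
  have hwS : ∀ u ∈ S, w u ∉ S := fun u hu hwu =>
    Finset.disjoint_left.1 hZ hwu (Finset.mem_filter.1 (hwN u hu)).1
  refine ⟨S.image w, ?_, Finset.card_image_of_injOn hw, ?_, ?_⟩
  · intro a ha
    obtain ⟨u, hu, rfl⟩ := Finset.mem_image.1 ha
    exact (Finset.mem_filter.1 (hwN u hu)).1
  · exact h4 R S w subset_rfl hw hwS (fun u hu => (Finset.mem_filter.1 (hwN u hu)).2)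
      (fun u hu hu' => absurd hu hu')
  · intro himp Y' hY'
    have := h4 R (S.filter fun u => w u ∈ Y') w (Finset.filter_subset _ _)
      (hw.mono (by intro u hu; exact (Finset.mem_filter.1 hu).1))
      (fun u hu => hwS u (Finset.mem_filter.1 hu).1)
      (fun u hu => (Finset.mem_filter.1 (hwN u (Finset.mem_filter.1 hu).1)).2)
      (fun u hu _ => himp _ u hu _ (h1 u hu) (h3 u hu))
    refine this.congr ?_
    congr 1
    ext a
    simp only [Finset.mem_image, Finset.mem_filter]
    constructor
    · rintro ⟨u, ⟨_, hu⟩, rfl⟩; exact hu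
    · intro ha
      obtain ⟨u, hu, rfl⟩ := Finset.mem_image.1 (hY' ha)
      exact ⟨u, ⟨hu, ha⟩, rfl⟩

open Classical in
/-- Lifting a cover through a reservoir `Z`, multi-scale version. -/
lemma lift_scale [DecidableEq V] {R' : ℕ → V → V → Prop} (R : ℕ → V → V → Prop)
    {S : Finset V} {m : ℕ} (h : Cover R' S m) (Z : Finset V) (hZ : Disjoint S Z) (x : V → ℕ)
    (hx : ∀ y, 2 * (S.filter fun u => x u ≤ y).card ≤ y)
    (hrefl : ∀ c, ∀ u ∈ S, R c u u)
    (hR : ∀ c, ∀ u ∈ S, ∀ v ∈ S, R' c u v → u = v ∨
      min (x u) (x v) ≤ (Z.filter fun a => R c u a ∧ R c a v).card) :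
    ∃ Y ⊆ Z, Y.card ≤ S.card ∧ Cover R (S ∪ Y) m := by
  obtain ⟨nxt, κ, h1, h2, h3, h4⟩ := h.expand
  set T := S.filter fun u => u ≠ nxt u with hT
  obtain ⟨w, hw, hwN⟩ := hall_scale T
    (fun u => Z.filter fun a => R (κ u) u a ∧ R (κ u) a (nxt u)) (by
      intro y
      have hsub : (T.filter fun u =>
          (Z.filter fun a => R (κ u) u a ∧ R (κ u) a (nxt u)).card ≤ y) ⊆
          (S.filter fun u => x u ≤ y) ∪ (S.filter fun u => x (nxt u) ≤ y) := by
        intro u hu
        obtain ⟨huT, hy⟩ := Finset.mem_filter.1 hu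
        obtain ⟨huS, hne⟩ := Finset.mem_filter.1 huT
        rcases hR _ u huS _ (h1 u huS) (h3 u huS) with e | e
        · exact absurd e hne
        · have := e.trans hy
          rw [min_le_iff] at this
          simp only [Finset.mem_union, Finset.mem_filter]
          tauto
      have hc2 : (S.filter fun u => x (nxt u) ≤ y).card ≤ (S.filter fun u => x u ≤ y).card := by
        apply Finset.card_le_card_of_injOn nxt
        · intro u hu
          have := Finset.mem_filter.1 hu
          exact Finset.mem_filter.2 ⟨h1 u this.1, this.2⟩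
        · exact h2.mono (by intro u hu; exact (Finset.mem_filter.1 hu).1)
      have := (Finset.card_le_card hsub).trans (Finset.card_union_le _ _)
      have := hx y
      omega)
  have hTS : T ⊆ S := Finset.filter_subset _ _
  refine ⟨T.image w, ?_, Finset.card_image_le.trans (Finset.card_le_card hTS), ?_⟩
  · intro a ha
    obtain ⟨u, hu, rfl⟩ := Finset.mem_image.1 ha
    exact (Finset.mem_filter.1 (hwN u hu)).1
  · refine h4 R T w hTS hw ?_ (fun u hu => (Finset.mem_filter.1 (hwN u hu)).2) ?_
    · intro u hu hwu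
      exact Finset.disjoint_left.1 hZ hwu (Finset.mem_filter.1 (hwN u hu)).1
    · intro u hu huT
      have : u = nxt u := by
        by_contra hne
        exact huT (Finset.mem_filter.2 ⟨hu, hne⟩)
      rw [← this]
      exact hrefl _ u hu

lemma lift_uniform' [DecidableEq V] {R' : ℕ → V → V → Prop} (R : ℕ → V → V → Prop)
    {S : Finset V} {m : ℕ} (h : Cover R' S m) (Z : Finset V) (hZ : Disjoint S Z)
    (hR : ∀ c, ∀ u ∈ S, ∀ v ∈ S, R' c u v →
      ∃ N ⊆ Z, S.card ≤ N.card ∧ ∀ a ∈ N, R c u a ∧ R c a v) :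
    ∃ Y ⊆ Z, Y.card = S.card ∧ Cover R (S ∪ Y) m ∧
      ((∀ c, ∀ u ∈ S, ∀ v ∈ S, R' c u v → R c u v) → ∀ Y' ⊆ Y, Cover R (S ∪ Y') m) := by
  apply lift_uniform R h Z hZ
  intro c u hu v hv huv
  obtain ⟨N, hN, h1, h2⟩ := hR c u hu v hv huv
  refine h1.trans (Finset.card_le_card ?_)
  intro a ha
  simp only [Finset.mem_filter]
  exact ⟨hN ha, h2 a ha⟩

lemma lift_scale' [DecidableEq V] {R' : ℕ → V → V → Prop} (R : ℕ → V → V → Prop)
    {S : Finset V} {m : ℕ} (h : Cover R' S m) (Z : Finset V) (hZ : Disjoint S Z) (x : V → ℕ)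
    (hx : ∀ y, 2 * (S.filter fun u => x u ≤ y).card ≤ y)
    (hrefl : ∀ c, ∀ u ∈ S, R c u u)
    (hR : ∀ c, ∀ u ∈ S, ∀ v ∈ S, R' c u v → u = v ∨
      ∃ N ⊆ Z, min (x u) (x v) ≤ N.card ∧ ∀ a ∈ N, R c u a ∧ R c a v) :
    ∃ Y ⊆ Z, Y.card ≤ S.card ∧ Cover R (S ∪ Y) m := by
  apply lift_scale R h Z hZ x hx hrefl
  intro c u hu v hv huv
  rcases hR c u hu v hv huv with e | ⟨N, hN, h1, h2⟩
  · exact Or.inl e
  refine Or.inr (h1.trans (Finset.card_le_card ?_))
  intro a ha
  simp only [Finset.mem_filter]
  exact ⟨hN ha, h2 a ha⟩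

end Pool.Agent.Lib.MP_b89653_co
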