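import Pool.Agent.Lib.MP_b89653_co.Local

set_option autoImplicit false

namespace Pool.Agent.Lib.MP_b89653_co

open Finset

variable {V : Type*}

/-- An absorbing structure: `U` together with any subset of `Z` is covered by few cycles. -/
lemma absorber [DecidableEq V] (χ : V → V → Option ℕ) (hsym : ∀ u v, χ u v = χ v u)
    (V0 : Finset V) (hne : V0.Nonempty) (M : ℕ) (hM : 1 ≤ M) (c : ℕ)
    (hrich : V0.card * V0.card ≤ M * ((V0 ×ˢ V0).filter fun p => χ p.1 p.2 = some c ∧
        V0.card ≤ M * cod χ V0 c p.1 p.2).card)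
    (s : ℕ) (hs : 64 * M * M * s ≤ V0.card) :
    ∃ U ⊆ V0, ∃ Z ⊆ V0, Disjoint U Z ∧ s ≤ Z.card ∧
      ∀ Y ⊆ Z, Cover (Rel χ) (U ∪ Y) (4 * M) := by
  classical
  set N := V0.card with hN
  have hNpos : 0 < N := hne.card_pos
  let rich : V → V → Prop := fun u v => χ u v = some c ∧ N ≤ M * cod χ V0 c u v
  have hrs : ∀ u v, rich u v → rich v u := by
    rintro u v ⟨h1, h2⟩
    refine ⟨by rw [hsym]; exact h1, ?_⟩
    have : cod χ V0 c v u = cod χ V0 c u v := by
      unfold cod
      congr 1
      ext a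
      simp only [Finset.mem_filter, hsym v a, hsym a u]
      tauto
    rw [this]; exact h2
  let Nb : V → Finset V := fun u => V0.filter fun v => rich u v
  let S0 := V0.filter fun u => N ≤ 2 * M * (Nb u).card
  have hS0 : N ≤ 2 * M * S0.card := by
    have e1 : ((V0 ×ˢ V0).filter fun p => χ p.1 p.2 = some c ∧
        N ≤ M * cod χ V0 c p.1 p.2).card = ∑ u ∈ V0, (Nb u).card := by
      simp only [Nb, rich, Finset.card_filter]
      rw [Finset.sum_product]
    have e2 : ∑ u ∈ V0, 2 * M * (Nb u).card ≤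
        ∑ u ∈ V0, (N + if N ≤ 2 * M * (Nb u).card then 2 * M * N else 0) := by
      apply Finset.sum_le_sum
      intro u _
      split_ifs with h
      · have : (Nb u).card ≤ N := Finset.card_filter_le _ _
        have := Nat.mul_le_mul_left (2 * M) this
        omega
      · omega
    rw [Finset.sum_add_distrib, ← Finset.sum_filter, ← Finset.mul_sum, ← e1] at e2
    simp only [Finset.sum_const, smul_eq_mul] at e2
    have e3 : N * N ≤ N * (2 * M * S0.card) := by
      simp only [S0]
      nlinarith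
    exact Nat.le_of_mul_le_mul_left e3 hNpos
  have hsS0 : s ≤ S0.card := by
    have : 2 * M * s ≤ 2 * M * S0.card := by nlinarith [Nat.zero_le (M * s)]
    exact Nat.le_of_mul_le_mul_left this (by omega)
  obtain ⟨S, hSS0, hS⟩ := Finset.exists_subset_card_eq hsS0
  have hSV : S ⊆ V0 := hSS0.trans (Finset.filter_subset _ _)
  have hc1 := dense_cover S V0 Nb (2 * M) (2 * s) c hne (fun _ _ => Finset.filter_subset _ _)
    (fun u hu => (Finset.mem_filter.1 (hSS0 hu)).2) (by nlinarith)
  obtain ⟨Y, hY, hYc, hc2, _⟩ := lift_uniform' (fun c' u v => c' = c ∧ rich u v) hc1 (V0 \ S)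
    Finset.disjoint_sdiff (by
      rintro c' u _ v _ ⟨rfl, h⟩
      refine ⟨(Nb u ∩ Nb v) \ S, ?_, ?_, ?_⟩
      · exact Finset.sdiff_subset_sdiff
          (Finset.inter_subset_left.trans (Finset.filter_subset _ _)) subset_rfl
      · have := Finset.le_card_sdiff S (Nb u ∩ Nb v)
        omega
      · intro a ha
        obtain ⟨h1, h2⟩ := Finset.mem_inter.1 (Finset.mem_sdiff.1 ha).1
        exact ⟨⟨rfl, (Finset.mem_filter.1 h1).2⟩, ⟨rfl, hrs _ _ (Finset.mem_filter.1 h2).2⟩⟩)
  set U := S ∪ Y with hU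
  have hUV : U ⊆ V0 := Finset.union_subset hSV (hY.trans Finset.sdiff_subset)
  have hUc : U.card ≤ 2 * s := by
    have := Finset.card_union_le S Y
    rw [← hU] at this
    omega
  have hUs : s ≤ U.card := hS ▸ Finset.card_le_card Finset.subset_union_left
  obtain ⟨Z, hZ, hZc, _, hc3⟩ := lift_uniform' (Rel χ) hc2 (V0 \ U) Finset.disjoint_sdiff (by
      rintro c' u _ v _ ⟨rfl, h1, h2⟩
      refine ⟨(V0.filter fun a => χ u a = some c' ∧ χ a v = some c') \ U, ?_, ?_, ?_⟩
      · exact Finset.sdiff_subset_sdiff (Finset.filter_subset _ _) subset_rfl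
      · have e0 := Finset.le_card_sdiff U (V0.filter fun a => χ u a = some c' ∧ χ a v = some c')
        have e1 : 4 * s ≤ cod χ V0 c' u v := by
          have : M * (4 * s) ≤ M * cod χ V0 c' u v := by nlinarith [Nat.zero_le (M * s)]
          exact Nat.le_of_mul_le_mul_left this (by omega)
        unfold cod at e1
        omega
      · intro a ha
        obtain ⟨_, h1, h2⟩ := Finset.mem_filter.1 (Finset.mem_sdiff.1 ha).1
        exact ⟨Or.inr h1, Or.inr h2⟩)
  refine ⟨U, hUV, Z, hZ.trans Finset.sdiff_subset, Finset.disjoint_sdiff.mono_right hZ,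
    by omega, fun Y' hY' => ?_⟩
  have := hc3 (by rintro c' u _ v _ ⟨rfl, h1, _⟩; exact Or.inr h1) Y' hY'
  exact this.mono (by omega)

/-- Robust local partition theorem: an almost complete `K`-locally coloured graph is partitioned
into boundedly many monochromatic cycles. -/
theorem robust_partition (K : ℕ) (hK : 1 ≤ K) : ∃ Q f : ℕ, 1 ≤ Q ∧
    ∀ (V : Type) [DecidableEq V] (χ : V → V → Option ℕ) (V0 : Finset V), (∀ u v, χ u v = χ v u) → Loc χ K V0 →
      (∀ v ∈ V0, Q * (V0.filter fun a => χ v a = none).card ≤ V0.card) →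
      Cover (Rel χ) V0 f := by
  classical
  obtain ⟨M, hM, hT⟩ := rich_triangles K
  have hρ := rho_pos hK
  set ρ := rho K with hρdef
  set g := K * (4 * K) with hg
  set Q := 64 * M * M * (ρ * (ρ + 1)) with hQ
  have hQM : M ≤ Q := by
    have : 1 ≤ 64 * M * (ρ * (ρ + 1)) := Nat.mul_pos (by omega) (Nat.mul_pos hρ (by omega))
    nlinarith
  have hQ1 : 1 ≤ Q := hM.trans hQM
  refine ⟨Q, Q + (4 * M + (2 * Q + 1) * g), hQ1, ?_⟩
  intro V _ χ V0 hsym hloc hn
  set N := V0.card with hN
  by_cases hsmall : N < Q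
  · exact (Cover.singles V0 (fun v _ => Or.inl rfl)).mono (by omega)
  push Not at hsmall
  have hne : V0.Nonempty := Finset.card_pos.1 (by omega)
  set q := N / Q with hq
  have hq1 : 1 ≤ q := (Nat.le_div_iff_mul_le hQ1).2 (by omega)
  have hqN : Q * q ≤ N := Nat.mul_div_le N Q
  have hNq : N ≤ 2 * Q * q := by
    have := Nat.lt_mul_div_succ N hQ1
    nlinarith
  have hnq : ∀ v ∈ V0, (V0.filter fun a => χ v a = none).card ≤ q := by
    intro v hv
    rw [hq, Nat.le_div_iff_mul_le hQ1, mul_comm]
    exact hn v hv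
  obtain ⟨c, hc⟩ := hT V χ V0 hsym hne hloc (by
    have e : ((V0 ×ˢ V0).filter fun p => χ p.1 p.2 = none).card =
        ∑ v ∈ V0, (V0.filter fun a => χ v a = none).card := by
      simp only [Finset.card_filter]
      rw [Finset.sum_product]
    rw [e, Finset.mul_sum]
    have := Finset.sum_le_card_nsmul V0 (fun v => M * (V0.filter fun a => χ v a = none).card) N
      (fun v hv => (Nat.mul_le_mul_right _ hQM).trans (hn v hv))
    simpa using this)
  obtain ⟨U, hU, Z, hZ, hUZ, hZs, hab⟩ := absorber χ hsym V0 hne M hM c hc (ρ * (ρ + 1) * q)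
    (by calc _ = Q * q := by rw [hQ]; ring
      _ ≤ N := hqN)
  have hnW : ∀ W ⊆ V0, ρ * q ≤ W.card → ∀ b ∈ V0,
      ρ * (W.filter fun a => χ b a = none).card ≤ W.card := by
    intro W hW hWc b hb
    refine le_trans (Nat.mul_le_mul_left _ ?_) hWc
    exact (Finset.card_le_card (Finset.filter_subset_filter _ hW)).trans (hnq b hb)
  have hbase : ∀ X ⊆ V0 \ (U ∪ Z), X.card ≤ (ρ + 1) * q →
      Cover (Rel χ) (U ∪ Z ∪ X) (4 * M + g) := by
    intro X hX hXc
    have hX0 : X ⊆ V0 := hX.trans Finset.sdiff_subset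
    have hXd : Disjoint X (U ∪ Z) := Finset.sdiff_disjoint.mono_left hX
    have hZc : ρ * q ≤ Z.card := le_trans (by nlinarith [Nat.zero_le (ρ * ρ * q)]) hZs
    have hZne : Z.Nonempty := Finset.card_pos.1 (lt_of_lt_of_le (Nat.mul_pos hρ hq1) hZc)
    obtain ⟨Y, hY, hcov⟩ := rlb hK χ hsym V0 hloc X Z hX0 hZ
      (hXd.mono_right Finset.subset_union_right) hZne
      (le_trans (by have := Nat.mul_le_mul_left ρ hXc; nlinarith) hZs)
      (fun b hb => hnW Z hZ hZc b (hX0 hb))
    have h2 := hab (Z \ Y) Finset.sdiff_subset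
    refine (h2.union hcov ?_).congr ?_
    · rw [Finset.disjoint_left]
      intro a ha ha'
      have hXa := fun h : a ∈ X => Finset.disjoint_left.1 hXd h
      have hUa := fun h : a ∈ U => Finset.disjoint_left.1 hUZ h
      have hYa := fun h : a ∈ Y => hY h
      simp only [Finset.mem_union, Finset.mem_sdiff] at ha ha' hXa
      clear * - ha ha' hXa hYa hUa
      tauto
    · ext a
      have hYa := fun h : a ∈ Y => hY h
      simp only [Finset.mem_union, Finset.mem_sdiff]
      clear * - hYa
      tauto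
  have hmain : ∀ j : ℕ, ∀ X ⊆ V0 \ (U ∪ Z), X.card ≤ (ρ + 1) * q + j * q →
      Cover (Rel χ) (U ∪ Z ∪ X) (4 * M + (j + 1) * g) := by
    intro j
    induction j with
    | zero => intro X hX hXc; simpa using hbase X hX (by simpa using hXc)
    | succ j ih =>
      intro X hX hXc
      by_cases hsm : X.card ≤ (ρ + 1) * q
      · exact (hbase X hX hsm).mono (by nlinarith [Nat.zero_le (j * g)])
      push Not at hsm
      have hX0 : X ⊆ V0 := hX.trans Finset.sdiff_subset
      have hXd : Disjoint X (U ∪ Z) := Finset.sdiff_disjoint.mono_left hX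
      obtain ⟨L, hLX, hL⟩ := Finset.exists_subset_card_eq (s := X) (n := q) (by nlinarith)
      have hWc : ρ * q < (X \ L).card := by
        rw [Finset.card_sdiff_of_subset hLX, hL]
        have : (ρ + 1) * q = ρ * q + q := by ring
        omega
      obtain ⟨Y, hY, hcov⟩ := rlb hK χ hsym V0 hloc L (X \ L) (hLX.trans hX0)
        (Finset.sdiff_subset.trans hX0) Finset.disjoint_sdiff
        (Finset.card_pos.1 (by omega)) (by rw [hL]; exact hWc.le)
        (fun b hb => hnW _ (Finset.sdiff_subset.trans hX0) hWc.le b (hX0 (hLX hb)))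
      have hLY : L ∪ Y ⊆ X := Finset.union_subset hLX (hY.trans Finset.sdiff_subset)
      have h2 := ih (X \ (L ∪ Y)) (Finset.sdiff_subset.trans hX) (by
        rw [Finset.card_sdiff_of_subset hLY]
        have : L.card ≤ (L ∪ Y).card := Finset.card_le_card Finset.subset_union_left
        have e : (j + 1) * q = j * q + q := by ring
        omega)
      refine ((h2.union hcov ?_).congr ?_).mono (le_of_eq (by ring))
      · rw [Finset.disjoint_left]
        intro a ha ha'
        have hXa := fun h : a ∈ X => Finset.disjoint_left.1 hXd h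
        have hYa := hLY ha'
        simp only [Finset.mem_union, Finset.mem_sdiff] at ha ha' hXa
        clear * - ha ha' hXa hYa
        tauto
      · ext a
        have hYa := fun h : a ∈ L ∪ Y => hLY h
        simp only [Finset.mem_union, Finset.mem_sdiff] at hYa ⊢
        clear * - hYa
        tauto
  have := hmain (2 * Q) (V0 \ (U ∪ Z)) subset_rfl (by
    have : (V0 \ (U ∪ Z)).card ≤ N := Finset.card_le_card Finset.sdiff_subset
    omega)
  refine (this.congr ?_).mono (by omega)
  exact Finset.union_sdiff_of_subset (Finset.union_subset hU hZ)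

end Pool.Agent.Lib.MP_b89653_co
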